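import Pool.Agent.Lib.MP_ec946a_Games.Main

/-!
# The base games, without parallel edges
-/

set_option autoImplicit false

namespace Pool.Agent.MP_ec946a.Mono

open Finset

theorem simple_of_noShort {U V E : Type} (src : E → U) (tgt : E → V) {R : ℕ} (hR : 2 ≤ R)
    (hns : NoShort src tgt R) : Function.Injective fun e => (src e, tgt e) := by
  intro e e' he
  by_contra hne
  obtain ⟨h1, h2⟩ := Prod.ext_iff.1 he
  simp only at h1 h2
  have := hns 1 (by omega) (fun i => if i = 0 then (e, true) else (e', false)) (by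
    intro i hi
    obtain rfl : i = 0 := by omega
    refine ⟨by simp, ?_, ?_⟩
    · simp only [zero_add, one_ne_zero, if_true, if_false]
      exact fun h => hne h.symm
    · simp [vt, h2])
  apply this
  simp [vt, h1]

/-- `game_of_graph` for graphs without parallel edges. -/
theorem game_of_graph' (δ : ℝ) (D r : ℕ) (hδ : 0 < δ) (hD : 1 ≤ D)
    (h1 : 3 * Real.exp 1 ≤ δ * r) (h2 : 2 * Real.log (2 * r) < δ * D) (hr2 : 2 ≤ r)
    (φ : Fin D → Fin (2 * r) → Fin r)
    (hφ : ∀ j b, (univ.filter fun a => φ j a = b).card = 2)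
    (hφe : ∀ i j, i ≠ j → ∀ S : Finset (Fin r), S ≠ ∅ → S ≠ univ →
      S.card < ((univ.filter fun a => φ i a ∈ S).image (φ j)).card)
    {W : Type} [Fintype W] [iW : DecidableEq W] [Nonempty W] (τ : Fin D → W → W)
    (hns : NoShort Prod.fst (fun e : W × Fin D => τ e.2 e.1) (2 * r)) :
    ∃ G : Game (2 * r), Nat.card G.U = Fintype.card W ∧ Nat.card G.V = Fintype.card W ∧
      (Function.Injective fun e => (G.src e, G.tgt e)) ∧ G.value ≤ δ ∧
      ∀ k, (∀ F : Finset (W × Fin D), F.card ≤ 2 * r * (4 * (2 * r - 2) * k) →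
        6 * (2 * r - 2) * F.card ≤ F.card + 6 * (2 * r - 2) *
          (verts Prod.fst (fun e : W × Fin D => τ e.2 e.1) F).card) → G.KConsistent k := by
  classical
  have hW : 1 ≤ Fintype.card W := Fintype.card_pos
  have hEcard : Fintype.card (W × Fin D) = Fintype.card W * D := by
    rw [Fintype.card_prod, Fintype.card_fin]
  set s := ⌈δ * (Fintype.card (W × Fin D) : ℝ)⌉₊ with hs
  obtain ⟨σ, hσ⟩ := exists_sigma (r := r) (Λ := (W → Fin (2 * r)) × (W → Fin (2 * r)))
    (E := W × Fin D) (fun l e => φ e.2 (l.1 e.1)) (fun l e => (l.2 (τ e.2 e.1)).val) s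
    (by
      rw [Fintype.card_prod, Fintype.card_fun, Fintype.card_fin, hs, hEcard]
      exact numeric_value δ (Fintype.card W) D r hδ hD hW h1 h2)
  set G := mkGame hD φ hφ τ σ with hG
  refine ⟨G, ?_, ?_, ?_, ?_, ?_⟩
  · exact Nat.card_eq_fintype_card
  · exact Nat.card_eq_fintype_card
  · exact simple_of_noShort _ _ (by omega) hns
  · unfold Game.value
    have : Nonempty ((G.U → Fin (2 * r)) × (G.V → Fin (2 * r))) :=
      ⟨(fun _ => ⟨0, by omega⟩, fun _ => ⟨0, by omega⟩)⟩
    apply ciSup_le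
    rintro ⟨LU, LV⟩
    have hE : (Nat.card G.E : ℝ) = (Fintype.card (W × Fin D) : ℝ) := by
      rw [show Nat.card G.E = Fintype.card (W × Fin D) from Nat.card_eq_fintype_card]
    have hpos : (0 : ℝ) < (Fintype.card (W × Fin D) : ℝ) := by
      rw [hEcard]
      have : 0 < Fintype.card W * D := Nat.mul_pos hW hD
      exact_mod_cast this
    rw [hE, div_le_iff₀ hpos]
    have h1 := hσ (LU, LV)
    have h2 := card_satisfied hD φ hφ τ σ LU LV
    show (Nat.card ((mkGame hD φ hφ τ σ).satisfied LU LV) : ℝ) ≤ _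
    rw [h2]
    by_contra hcon
    push Not at hcon
    have h3 : s ≤ (univ.filter fun e : W × Fin D =>
          (σ e (φ e.2 (LU e.1))).val = (LV (τ e.2 e.1)).val).card := by
      rw [hs]
      exact Nat.ceil_le.2 hcon.le
    exact absurd h1 (not_lt.2 h3)
  · intro k hsp
    refine @kconsistent_of r G (fun e a => σ e (φ e.2 a)) hr2 iW iW instDecidableEqProd
      (fun e a => rfl) ?_ ?_ hns k (2 * r - 2) rfl hsp
    · intro e b
      have h1 := hφ e.2 ((σ e).symm b)
      have h2 : (univ.filter fun a => φ e.2 a = (σ e).symm b).Nonempty := by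
        rw [← card_pos, h1]; norm_num
      obtain ⟨a, ha⟩ := h2
      rw [mem_filter] at ha
      exact ⟨a, by show σ e (φ e.2 a) = b; rw [ha.2]; simp⟩
    · intro e e' hsrc hne S hS1 hS2
      have hcol : e.2 ≠ e'.2 := fun h => hne (Prod.ext hsrc h)
      set T := S.map (σ e).symm.toEmbedding with hT
      have hT1 : T ≠ ∅ := by
        rw [hT]; simpa using hS1
      have hTc : T.card = S.card := card_map _
      have hT2 : T ≠ univ := by
        intro h
        apply hS2
        rw [← card_eq_iff_eq_univ, ← hTc, h, card_univ]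
      have h1 := hφe e.2 e'.2 hcol T hT1 hT2
      rw [hTc] at h1
      refine lt_of_lt_of_eq h1 ?_
      have h2 : ((univ.filter fun a => σ e (φ e.2 a) ∈ S).image fun a => σ e' (φ e'.2 a)) =
          (((univ.filter fun a => φ e.2 a ∈ T).image (φ e'.2))).map (σ e').toEmbedding := by
        ext b
        simp only [mem_image, mem_filter, mem_univ, true_and, mem_map, Equiv.coe_toEmbedding, hT]
        constructor
        · rintro ⟨a, ha, rfl⟩
          exact ⟨φ e'.2 a, ⟨a, ⟨σ e (φ e.2 a), ha, by simp⟩, rfl⟩, rfl⟩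
        · rintro ⟨_, ⟨a, ⟨c, hc, hca⟩, rfl⟩, rfl⟩
          refine ⟨a, ?_, rfl⟩
          rw [← hca]; simpa using hc
      have h3 : (((univ.filter fun a => φ e.2 a ∈ T).image (φ e'.2)).map
          (σ e').toEmbedding).card = ((univ.filter fun a => φ e.2 a ∈ T).image (φ e'.2)).card :=
        card_map _
      rw [← h3, ← h2]

/-- The base games. -/
theorem base (δ : ℝ) (hδ : 0 < δ) (hδ2 : δ ≤ 1 / 2) :
    ∃ (q C : ℕ) (γ : ℝ), (q : ℝ) ≤ 51 * (1 / δ) * Real.log (1 / δ) ∧ 1 ≤ q ∧ 1 ≤ C ∧ 0 < γ ∧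
      γ ≤ 1 ∧
      ∀ n : ℕ, 1 ≤ n → ∃ G : Game q, Nat.card G.U = C * n ∧ Nat.card G.V = C * n ∧
        (Function.Injective fun e => (G.src e, G.tgt e)) ∧ G.value ≤ δ ∧
        ∀ k : ℕ, (k : ℝ) ≤ γ * n → G.KConsistent k := by
  classical
  obtain ⟨p, hp, hp3, hq, h1, h2⟩ := exists_prime δ hδ hδ2
  have hg := gadget_prime p hp (by omega) p le_rfl
  obtain ⟨r, hr⟩ : ∃ r, r = p / 2 + 1 := ⟨_, rfl⟩
  rw [← hr] at hg hq h1 h2
  obtain ⟨φ, hφ, hφe⟩ := hg
  have hr2 : 2 ≤ r := by omega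
  obtain ⟨C, c, hC, hc, hgraph⟩ := exists_sparse p (2 * r) (6 * (2 * r - 2)) (by omega) (by omega)
  set B := c * (16 * r * (2 * r - 2)) with hB
  have hB1 : 1 ≤ B := by
    rw [hB]
    apply Nat.mul_pos hc
    apply Nat.mul_pos <;> omega
  have hBR : (1 : ℝ) ≤ B := by exact_mod_cast hB1
  set γ₁ : ℝ := 1 / B with hγ₁
  have hγ₁pos : 0 < γ₁ := by positivity
  have hγ₁le : γ₁ ≤ 1 := by rw [hγ₁, div_le_one (by positivity)]; exact hBR
  refine ⟨2 * r, C, γ₁, hq, by omega, hC, hγ₁pos, hγ₁le, ?_⟩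
  intro n hn
  obtain ⟨W, iF, iD, τ, hinj, hWcard, hns, hsp⟩ := hgraph n hn
  have hWpos : 1 ≤ Fintype.card W := by rw [hWcard]; exact Nat.mul_pos hC hn
  have : Nonempty W := Fintype.card_pos_iff.1 hWpos
  obtain ⟨G, hU, hV, hinj, hval, hcons⟩ :=
    game_of_graph' δ p r hδ (by omega) h1 h2 hr2 φ hφ hφe τ hns
  refine ⟨G, by rw [hU, hWcard], by rw [hV, hWcard], hinj, hval, ?_⟩
  intro k hk
  apply hcons
  intro F hF
  have hBk : B * k ≤ n := by
    have h3 : (B : ℝ) * k ≤ n := by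
      have h4 : (B : ℝ) * k ≤ B * (γ₁ * n) := mul_le_mul_of_nonneg_left hk (by positivity)
      have h5 : (B : ℝ) * (γ₁ * n) = n := by rw [hγ₁]; field_simp
      linarith
    exact_mod_cast h3
  have hverts : (verts Prod.fst (fun e : W × Fin p => τ e.2 e.1) F).card ≤ 2 * F.card := by
    unfold verts
    exact card_image_le.trans (card_darts F).le
  have h6 : c * (verts Prod.fst (fun e : W × Fin p => τ e.2 e.1) F).card ≤ n := by
    refine le_trans ?_ hBk
    rw [hB, mul_assoc]
    apply Nat.mul_le_mul_left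
    calc _ ≤ 2 * F.card := hverts
      _ ≤ 2 * (2 * r * (4 * (2 * r - 2) * k)) := Nat.mul_le_mul_left _ hF
      _ = 16 * r * (2 * r - 2) * k := by ring
  have h7 := hsp F h6
  by_cases hle : (verts Prod.fst (fun e : W × Fin p => τ e.2 e.1) F).card ≤ F.card
  · nlinarith
  · push Not at hle
    have := Nat.mul_le_mul_left (6 * (2 * r - 2)) hle.le
    omega

end Pool.Agent.MP_ec946a.Mono
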