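import Pool.Agent.Lib.MP_ec946a_Games.Defs

/-!
# Monotone real circuits whose input is a 2-to-1 game

The definitions used by the statement.
-/

set_option autoImplicit false

namespace Pool.Agent.MP_ec946a

/-- The possible edges of a 2-to-1 game with `N` vertices on each side and alphabet `Fin q`: the
two ends, and a total map all of whose fibres have at most two elements. -/
structure Constraint (N q : ℕ) where
  u : Fin N
  v : Fin N
  proj : Fin q → Fin q
  two_to_one : ∀ b, Nat.card {a // proj a = b} ≤ 2

theorem Constraint.injective (N q : ℕ) :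
    Function.Injective fun c : Constraint N q => (c.u, c.v, c.proj) := by
  rintro ⟨u, v, π, h⟩ ⟨u', v', π', h'⟩ he
  simp only [Prod.mk.injEq] at he
  obtain ⟨rfl, rfl, rfl⟩ := he
  rfl

instance (N q : ℕ) : Finite (Constraint N q) := Finite.of_injective _ (Constraint.injective N q)

/-- The 2-to-1 game with vertex sets `Fin N`, `Fin N` whose edges are the members of `x`. -/
noncomputable def gameOf {N q : ℕ} (x : Set (Constraint N q)) (hx : x.Nonempty) : Game q where
  U := Fin N
  V := Fin N
  E := x
  finE := Fintype.ofFinite x
  neE := hx.to_subtype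
  src := fun e => e.1.u
  tgt := fun e => e.1.v
  proj := fun e => e.1.proj
  two_to_one := fun e => e.1.two_to_one

/-- The functions of a subset `x` of `T` that may be fed into a gate, when `g 0, …, g (i - 1)` are
the functions computed so far: the input variables (`1` if `t ∈ x` and `0` otherwise), constants,
and the functions computed so far. -/
inductive Wire {T : Type} {s : ℕ} (g : Fin s → Set T → ℝ) (i : ℕ) : (Set T → ℝ) → Prop
  | var (t : T) : Wire g i fun x => x.indicator 1 t
  | const (c : ℝ) : Wire g i fun _ => c
  | gate (j : Fin s) (h : j.val < i) : Wire g i (g j)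

/-- `f` is computed by a monotone real circuit with `s` gates. Every gate applies a function of two
real variables, nondecreasing in both, to two wires. -/
def HasCircuit {T : Type} (s : ℕ) (f : Set T → ℝ) : Prop :=
  ∃ g : Fin s → Set T → ℝ, Wire g s f ∧
    ∀ i : Fin s, ∃ (a b : Set T → ℝ) (φ : ℝ → ℝ → ℝ), Wire g i a ∧ Wire g i b ∧
      (∀ u u' v v', u ≤ u' → v ≤ v' → φ u v ≤ φ u' v') ∧ ∀ x, g i x = φ (a x) (b x)

/-- `f` separates the games of value `1` from the games of value at most `δ`. -/
def Separates (N q : ℕ) (δ : ℝ) (f : Set (Constraint N q) → ℝ) : Prop :=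
  ∀ (x y : Set (Constraint N q)) (hx : x.Nonempty) (hy : y.Nonempty),
    (gameOf x hx).value = 1 → (gameOf y hy).value ≤ δ → f x < f y

end Pool.Agent.MP_ec946a
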