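import Pool.Agent.Lib.MP_ec946a_Monotone.Walk

/-!
# Copies of a base game, and games given by a table
-/

set_option autoImplicit false

namespace Pool.Agent.MP_ec946a.Mono

open Finset
open scoped Classical

noncomputable section

variable {q : ℕ}

theorem value_le_one (G : Game q) (L : (G.U → Fin q) × (G.V → Fin q)) :
    (Nat.card (G.satisfied L.1 L.2) : ℝ) / (Nat.card G.E : ℝ) ≤ 1 := by
  have h : Nat.card (G.satisfied L.1 L.2) ≤ Nat.card G.E :=
    Nat.card_le_card_of_injective (fun e => e.1) Subtype.val_injective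
  apply div_le_one_of_le₀
  · exact_mod_cast h
  · positivity

theorem bddAbove_value (G : Game q) : BddAbove (Set.range fun L : (G.U → Fin q) × (G.V → Fin q) =>
    (Nat.card (G.satisfied L.1 L.2) : ℝ) / (Nat.card G.E : ℝ)) :=
  ⟨1, by rintro _ ⟨L, rfl⟩; exact value_le_one G L⟩

theorem card_E_pos (G : Game q) : (0 : ℝ) < Nat.card G.E := by
  have : 0 < Nat.card G.E := Nat.card_pos
  exact_mod_cast this

/-- A game all of whose edges are satisfied by some labeling has value `1`. -/
theorem value_eq_one (G : Game q) (LU : G.U → Fin q) (LV : G.V → Fin q)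
    (h : ∀ e, G.proj e (LU (G.src e)) = LV (G.tgt e)) : G.value = 1 := by
  unfold Game.value
  have hne : Nonempty ((G.U → Fin q) × (G.V → Fin q)) := ⟨(LU, LV)⟩
  apply le_antisymm
  · exact ciSup_le fun L => value_le_one G L
  · refine le_ciSup_of_le (bddAbove_value G) (LU, LV) ?_
    have hs : G.satisfied LU LV = Set.univ := by
      ext e
      simp [Game.satisfied, h e]
    simp only
    rw [hs, Nat.card_congr (Equiv.Set.univ G.E), div_self (card_E_pos G).ne']

section

variable {N : ℕ} (G : Game q) {A : Type} (eU : G.U × A ↪ Fin N) (eV : G.V × A ↪ Fin N)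

/-- The edge `e` placed on the cells chosen by the pointers `x`. -/
def place (x : G.U ⊕ G.V → A) (e : G.E) : Constraint N q where
  u := eU (G.src e, x (Sum.inl (G.src e)))
  v := eV (G.tgt e, x (Sum.inr (G.tgt e)))
  proj := G.proj e
  two_to_one := G.two_to_one e

/-- The copy of the game chosen by the pointers `x`. -/
def copy (x : G.U ⊕ G.V → A) : Set (Constraint N q) := Set.range (place G eU eV x)

theorem copy_nonempty (x : G.U ⊕ G.V → A) : (copy G eU eV x).Nonempty :=
  Set.range_nonempty _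

theorem place_injective (hinj : Function.Injective fun e => (G.src e, G.tgt e))
    (x : G.U ⊕ G.V → A) : Function.Injective (place G eU eV x) := by
  intro e e' h
  apply hinj
  have h1 := congrArg Constraint.u h
  have h2 := congrArg Constraint.v h
  simp only [place] at h1 h2
  have h3 := (Prod.ext_iff.1 (eU.injective h1)).1
  have h4 := (Prod.ext_iff.1 (eV.injective h2)).1
  exact Prod.ext h3 h4

theorem value_copy [NeZero q] (hinj : Function.Injective fun e => (G.src e, G.tgt e))
    (x : G.U ⊕ G.V → A) : (gameOf (copy G eU eV x) (copy_nonempty G eU eV x)).value ≤ G.value := by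
  set G' := gameOf (copy G eU eV x) (copy_nonempty G eU eV x) with hG'
  have hne : Nonempty ((G'.U → Fin q) × (G'.V → Fin q)) := ⟨(fun _ => 0, fun _ => 0)⟩
  have hinj' := place_injective G eU eV hinj x
  let ε : G.E ≃ G'.E := Equiv.ofInjective (place G eU eV x) hinj'
  show (⨆ L : (G'.U → Fin q) × (G'.V → Fin q),
    (Nat.card (G'.satisfied L.1 L.2) : ℝ) / (Nat.card G'.E : ℝ)) ≤ G.value
  apply ciSup_le
  rintro ⟨LU, LV⟩
  have hE : Nat.card G'.E = Nat.card G.E := (Nat.card_congr ε).symm
  set MU : G.U → Fin q := fun u => LU (eU (u, x (Sum.inl u))) with hMU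
  set MV : G.V → Fin q := fun v => LV (eV (v, x (Sum.inr v))) with hMV
  have hS : Nat.card (G'.satisfied LU LV) = Nat.card (G.satisfied MU MV) := by
    symm
    apply Nat.card_congr
    refine ε.subtypeEquiv ?_
    intro e
    exact Iff.rfl
  simp only
  rw [hS, hE]
  exact le_ciSup (bddAbove_value G) (MU, MV)

/-- The labeling of `Fin N` given by a table, on the left side. -/
def tabU [NeZero q] (y : (G.U ⊕ G.V) × A → Fin q) (c : Fin N) : Fin q :=
  if h : ∃ s, eU s = c then y (Sum.inl h.choose.1, h.choose.2) else 0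

/-- The labeling of `Fin N` given by a table, on the right side. -/
def tabV [NeZero q] (y : (G.U ⊕ G.V) × A → Fin q) (c : Fin N) : Fin q :=
  if h : ∃ s, eV s = c then y (Sum.inr h.choose.1, h.choose.2) else 0

theorem tabU_apply [NeZero q] (y : (G.U ⊕ G.V) × A → Fin q) (u : G.U) (α : A) :
    tabU G eU y (eU (u, α)) = y (Sum.inl u, α) := by
  unfold tabU
  have h : ∃ s, eU s = eU (u, α) := ⟨_, rfl⟩
  rw [dif_pos h]
  have := eU.injective h.choose_spec
  rw [this]

theorem tabV_apply [NeZero q] (y : (G.U ⊕ G.V) × A → Fin q) (v : G.V) (α : A) :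
    tabV G eV y (eV (v, α)) = y (Sum.inr v, α) := by
  unfold tabV
  have h : ∃ s, eV s = eV (v, α) := ⟨_, rfl⟩
  rw [dif_pos h]
  have := eV.injective h.choose_spec
  rw [this]

/-- The edges satisfied by the table. -/
def sat [NeZero q] (y : (G.U ⊕ G.V) × A → Fin q) : Set (Constraint N q) :=
  {c | c.proj (tabU G eU y c.u) = tabV G eV y c.v}

theorem sat_nonempty [NeZero q] (hN : 0 < N) (y : (G.U ⊕ G.V) × A → Fin q) :
    (sat G eU eV y).Nonempty := by
  set a := tabU G eU y ⟨0, hN⟩
  set b := tabV G eV y ⟨0, hN⟩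
  refine ⟨⟨⟨0, hN⟩, ⟨0, hN⟩, Equiv.swap a b, ?_⟩, ?_⟩
  · intro c
    have : Subsingleton {d // Equiv.swap a b d = c} := by
      constructor
      rintro ⟨d, hd⟩ ⟨d', hd'⟩
      apply Subtype.ext
      exact (Equiv.swap a b).injective (hd.trans hd'.symm)
    have := Finite.card_le_one_iff_subsingleton.2 this
    omega
  · exact Equiv.swap_apply_left a b

theorem value_sat [NeZero q] (y : (G.U ⊕ G.V) × A → Fin q) (h : (sat G eU eV y).Nonempty) :
    (gameOf (sat G eU eV y) h).value = 1 :=
  value_eq_one _ (tabU G eU y) (tabV G eV y) fun e => e.2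

theorem ncard_dom (h : G.Partial) : G.size h = (dom h).card := by
  unfold Game.size dom
  rw [← Set.ncard_coe_finset]
  congr 1
  ext x
  simp

end

theorem exp_ninth : Real.exp (1 / 9) ≤ 9 / 8 := by
  by_contra hcon
  push Not at hcon
  have h1 : ((9 : ℝ) / 8) ^ 9 < Real.exp (1 / 9) ^ 9 := pow_lt_pow_left₀ hcon (by norm_num)
    (by norm_num)
  rw [← Real.exp_nat_mul] at h1
  have h2 : ((9 : ℕ) : ℝ) * (1 / 9) = 1 := by norm_num
  rw [h2] at h1
  have h3 := Real.exp_one_lt_d9
  norm_num at h1
  linarith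

/-- The lower bound for given parameters. -/
theorem core [NeZero q] (G : Game q) (hinj : Function.Injective fun e => (G.src e, G.tgt e))
    {δ : ℝ} (hval : G.value ≤ δ) {k kk u L N s : ℕ} (hu : 1 ≤ u) (hU : Nat.card G.U = u)
    (hV : Nat.card G.V = u) (hk : 3 * kk ≤ k) (hkk : 2 ≤ kk) (hcons : G.KConsistent k)
    (hL0 : 0 < L) (hN : u * (2 * (9 * (2 * u) * L * q)) ≤ N) (hs : s ≤ 2 ^ kk)
    (hL : 2 ^ kk * ((2 * (9 * (2 * u) * L * q)) * q + 1) ^ (2 * u) + 1 < 8 ^ L)
    (f : Set (Constraint N q) → ℝ) (hf : HasCircuit s f) : ¬ Separates N q δ f := by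
  intro hsep
  have hq : 0 < q := Nat.pos_of_ne_zero (NeZero.ne q)
  set a := 9 * (2 * u) * L * q with ha
  have hapos : 0 < a := by rw [ha]; positivity
  set m := 2 * a with hm
  have hmpos : 0 < m := by omega
  have : Nonempty (Fin m) := ⟨⟨0, hmpos⟩⟩
  obtain ⟨g, hfw, hcirc⟩ := hf
  obtain ⟨H, hHne, hH1, hH2, hH3⟩ := hcons
  obtain ⟨eU⟩ : Nonempty (G.U × Fin m ↪ Fin N) := by
    apply Function.Embedding.nonempty_of_card_le
    rw [Fintype.card_prod, Fintype.card_fin, Fintype.card_fin, ← Nat.card_eq_fintype_card, hU]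
    exact hN
  obtain ⟨eV⟩ : Nonempty (G.V × Fin m ↪ Fin N) := by
    apply Function.Embedding.nonempty_of_card_le
    rw [Fintype.card_prod, Fintype.card_fin, Fintype.card_fin, ← Nat.card_eq_fintype_card, hV]
    exact hN
  have hNpos : 0 < N := lt_of_lt_of_le (by positivity) hN
  have hcardι : Fintype.card (G.U ⊕ G.V) = 2 * u := by
    rw [Fintype.card_sum, ← Nat.card_eq_fintype_card, ← Nat.card_eq_fintype_card, hU, hV]
    ring
  let D : Data (G.U ⊕ G.V) (Fin m) (Fin q) (Constraint N q) :=
  { a := a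
    b := 2
    k := k
    kk := kk
    L := L
    s := s
    H := H
    M := copy G eU eV
    F := sat G eU eV
    g := g
    ha := hapos
    hb := le_rfl
    hL := hL0
    hA := by rw [Fintype.card_fin, hm, mul_comm]
    hk := hk
    hkk := hkk
    hnum := by
      rw [hcardι, Fintype.card_fin, ha]
      have h1 : ((L * q : ℕ) : ℝ) / ((9 * (2 * u) * L * q : ℕ) : ℝ) = 1 / 9 / ((2 * u : ℕ) : ℝ) := by
        have hu' : (u : ℝ) ≠ 0 := by positivity
        have hL' : (L : ℝ) ≠ 0 := by positivity
        have hq' : (q : ℝ) ≠ 0 := by positivity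
        push_cast
        field_simp
      rw [h1]
      refine le_trans ?_ exp_ninth
      have h2 : 1 + 1 / 9 / ((2 * u : ℕ) : ℝ) ≤ Real.exp (1 / 9 / ((2 * u : ℕ) : ℝ)) := by
        rw [add_comm]
        exact Real.add_one_le_exp _
      calc (1 + 1 / 9 / ((2 * u : ℕ) : ℝ)) ^ (2 * u)
          ≤ Real.exp (1 / 9 / ((2 * u : ℕ) : ℝ)) ^ (2 * u) :=
            pow_le_pow_left₀ (by positivity) h2 _
        _ = Real.exp (1 / 9) := by
          rw [← Real.exp_nat_mul]
          congr 1
          have hu' : ((2 * u : ℕ) : ℝ) ≠ 0 := by positivity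
          field_simp
    hX := by
      rw [pow_succ]
      omega
    hY := by
      rw [hcardι, Fintype.card_fin, Fintype.card_fin]
      refine lt_of_le_of_lt ?_ hL
      apply Nat.add_le_add_right
      exact Nat.mul_le_mul_right _ hs
    hH := hHne
    hres := fun h hh h' hle => hH2 h hh h' hle
    hext := by
      intro h hh hlt i
      obtain ⟨h', hh', h1, h2⟩ := hH3 h hh (by rw [ncard_dom]; exact hlt) i
      exact ⟨h', hh', h1, h2⟩
    hvar := by
      rintro x _ ⟨e, rfl⟩
      refine ⟨{Sum.inl (G.src e), Sum.inr (G.tgt e)}, card_le_two, ?_⟩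
      intro h hh hJ y hy
      obtain ⟨a', ha'⟩ := Option.ne_none_iff_exists'.1 (hJ (Sum.inl (G.src e)) (by simp))
      obtain ⟨b', hb'⟩ := Option.ne_none_iff_exists'.1 (hJ (Sum.inr (G.tgt e)) (by simp))
      have hr := (hH1 h hh).2 e a' b' ha' hb'
      show G.proj e (tabU G eU y (eU (G.src e, x (Sum.inl (G.src e))))) =
        tabV G eV y (eV (G.tgt e, x (Sum.inr (G.tgt e))))
      rw [tabU_apply, tabV_apply, hy _ _ ha', hy _ _ hb', hr] }
  refine D.not_separates hcirc f hfw ?_
  intro x y
  exact hsep _ _ (sat_nonempty G eU eV hNpos y) (copy_nonempty G eU eV x) (value_sat G eU eV y _)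
    ((value_copy G eU eV hinj x).trans hval)

end

end Pool.Agent.MP_ec946a.Mono
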