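import Pool.Agent.Lib.MP_ec946a_Monotone.Base
import Pool.Agent.Lib.MP_ec946a_Monotone.Embed

/-!
# The lower bound
-/

set_option autoImplicit false

namespace Pool.Agent.MP_ec946a.Mono

open Filter

/-- The asymptotic part. -/
theorem cube_root_large {B : ℝ} (hB : 0 < B) {N : ℝ} (hN : 3 ≤ N) (hNB : 4 * B ^ 6 ≤ N) :
    B ≤ (N / Real.log N) ^ ((1 : ℝ) / 3) := by
  have hN0 : 0 < N := by linarith
  have hlog : 0 < Real.log N := Real.log_pos (by linarith)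
  have h1 : Real.log N ≤ N ^ ((1 : ℝ) / 2) / (1 / 2) := Real.log_le_rpow_div hN0.le (by norm_num)
  have h2 : N = N ^ ((1 : ℝ) / 2) * N ^ ((1 : ℝ) / 2) := by
    rw [← Real.rpow_add hN0]; norm_num
  have h3 : 2 * B ^ 3 ≤ N ^ ((1 : ℝ) / 2) := by
    rw [← Real.sqrt_eq_rpow]
    apply Real.le_sqrt_of_sq_le
    nlinarith
  have hpos : 0 < N ^ ((1 : ℝ) / 2) := Real.rpow_pos_of_pos hN0 _
  have h4 : B ^ 3 ≤ N / Real.log N := by
    rw [le_div_iff₀ hlog]
    calc B ^ 3 * Real.log N ≤ B ^ 3 * (N ^ ((1 : ℝ) / 2) / (1 / 2)) :=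
          mul_le_mul_of_nonneg_left h1 (by positivity)
      _ = (2 * B ^ 3) * N ^ ((1 : ℝ) / 2) := by ring
      _ ≤ N ^ ((1 : ℝ) / 2) * N ^ ((1 : ℝ) / 2) := mul_le_mul_of_nonneg_right h3 hpos.le
      _ = N := h2.symm
  calc B = (B ^ 3) ^ ((1 : ℝ) / 3) := by
        rw [← Real.rpow_natCast, ← Real.rpow_mul hB.le]; norm_num
    _ ≤ _ := Real.rpow_le_rpow (by positivity) h4 (by norm_num)

theorem main_bound (δ : ℝ) (hδ : 0 < δ) (hδ2 : δ ≤ 1 / 2) :
    ∃ (q : ℕ) (γ : ℝ), (q : ℝ) ≤ 51 * (1 / δ) * Real.log (1 / δ) ∧ 0 < γ ∧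
      ∀ᶠ N : ℕ in atTop, ∀ (s : ℕ) (f : Set (Constraint N q) → ℝ),
        HasCircuit s f → Separates N q δ f →
          Real.exp (γ * ((N : ℝ) / Real.log N) ^ ((1 : ℝ) / 3)) < s := by
  obtain ⟨q, C, γ₁, hq, hq1, hC1, hγ₁, hγ₁le, hbase⟩ := base δ hδ hδ2
  have hqne : NeZero q := ⟨by omega⟩
  have hqR : (1 : ℝ) ≤ q := by exact_mod_cast hq1
  have hCR : (1 : ℝ) ≤ C := by exact_mod_cast hC1
  set c₁ : ℝ := 1 / (288 * C * q) with hc₁
  have hc₁pos : 0 < c₁ := by positivity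
  have hc₁le : c₁ ≤ 1 := by
    rw [hc₁, div_le_one (by positivity)]
    nlinarith
  set B : ℝ := 10 / (γ₁ * c₁) with hB
  have hBpos : 0 < B := by positivity
  refine ⟨q, γ₁ * c₁ / 12, hq, by positivity, ?_⟩
  filter_upwards [eventually_ge_atTop 3, eventually_ge_atTop (8 * q),
    eventually_ge_atTop ⌈4 * B ^ 6⌉₊] with N hN3 hNq hNB s f hf hsep
  by_contra hcon
  push Not at hcon
  have hN3R : (3 : ℝ) ≤ N := by exact_mod_cast hN3
  have hN0 : (0 : ℝ) < N := by linarith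
  have hlog1 : 1 ≤ Real.log N := by
    rw [Real.le_log_iff_exp_le hN0]
    have := Real.exp_one_lt_d9
    linarith
  set X : ℝ := ((N : ℝ) / Real.log N) ^ ((1 : ℝ) / 3) with hX
  have hXB : B ≤ X := cube_root_large hBpos hN3R (Nat.ceil_le.1 hNB)
  have hXpos : 0 < X := lt_of_lt_of_le hBpos hXB
  have hX3 : X ^ 3 * Real.log N = N := by
    rw [hX, ← Real.rpow_natCast, ← Real.rpow_mul (by positivity)]
    norm_num
    field_simp
  have hgX : 10 ≤ γ₁ * c₁ * X := by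
    have : 10 = γ₁ * c₁ * B := by rw [hB]; field_simp
    rw [this]
    exact mul_le_mul_of_nonneg_left hXB (by positivity)
  -- the parameters
  set n : ℕ := ⌊c₁ * X⌋₊ with hn
  have hnle : (n : ℝ) ≤ c₁ * X := Nat.floor_le (by positivity)
  have hngt : c₁ * X < n + 1 := Nat.lt_floor_add_one _
  have hcX : 10 ≤ c₁ * X := by nlinarith
  have hn1 : 1 ≤ n := by
    have : (1 : ℝ) ≤ n := by linarith
    exact_mod_cast this
  set u : ℕ := C * n with hu
  have hu1 : 1 ≤ u := Nat.mul_pos hC1 hn1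
  set ℓ : ℕ := 2 * ⌈Real.log N⌉₊ with hℓ
  have hℓge : 2 * Real.log N ≤ ℓ := by
    rw [hℓ]; push_cast
    have := Nat.le_ceil (Real.log N)
    linarith
  have hℓle : (ℓ : ℝ) ≤ 4 * Real.log N := by
    rw [hℓ]; push_cast
    have := Nat.ceil_lt_add_one (a := Real.log N) (by linarith)
    linarith
  have hℓ1 : 1 ≤ ℓ := by
    have : (1 : ℝ) ≤ ℓ := by linarith
    exact_mod_cast this
  set k : ℕ := ⌊γ₁ * n⌋₊ with hk
  have hkle : (k : ℝ) ≤ γ₁ * n := Nat.floor_le (by positivity)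
  have hkgt : γ₁ * n < k + 1 := Nat.lt_floor_add_one _
  set kk : ℕ := k / 3 with hkk
  have hkk3 : k ≤ 3 * kk + 2 := by omega
  have hkk3R : (k : ℝ) ≤ 3 * kk + 2 := by exact_mod_cast hkk3
  have hkkge : γ₁ * c₁ * X ≤ 3 * kk + 4 := by
    have h1 : γ₁ * (c₁ * X) ≤ γ₁ * (n + 1) := mul_le_mul_of_nonneg_left hngt.le hγ₁.le
    nlinarith
  have hkk2 : 2 ≤ kk := by
    have : (2 : ℝ) ≤ kk := by linarith
    exact_mod_cast this
  obtain ⟨G, hGU, hGV, hinj, hval, hcons⟩ := hbase n hn1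
  -- the size of the instance
  have hsize : 72 * u ^ 3 * ℓ * q ≤ N := by
    have h1 : ((72 * u ^ 3 * ℓ * q : ℕ) : ℝ) ≤ (N : ℝ) := by
      push_cast
      rw [hu]
      push_cast
      have hn3 : (n : ℝ) ^ 3 ≤ (c₁ * X) ^ 3 := pow_le_pow_left₀ (by positivity) hnle 3
      calc 72 * ((C : ℝ) * n) ^ 3 * ℓ * q
          ≤ 72 * ((C : ℝ) * n) ^ 3 * (4 * Real.log N) * q := by gcongr
        _ = 288 * (C : ℝ) ^ 3 * q * (n : ℝ) ^ 3 * Real.log N := by ring
        _ ≤ 288 * (C : ℝ) ^ 3 * q * (c₁ * X) ^ 3 * Real.log N := by gcongr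
        _ = 288 * (C : ℝ) ^ 3 * q * c₁ ^ 3 * (X ^ 3 * Real.log N) := by ring
        _ = 288 * (C : ℝ) ^ 3 * q * c₁ ^ 3 * N := by rw [hX3]
        _ ≤ 1 * N := by
            apply mul_le_mul_of_nonneg_right _ hN0.le
            have h2 : 288 * (C : ℝ) ^ 3 * q * c₁ ^ 3 = 1 / (288 * q) ^ 2 := by
              rw [hc₁]
              field_simp
            rw [h2, div_le_one (by positivity)]
            nlinarith
        _ = N := one_mul _
    exact_mod_cast h1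
  have hsize2 : 72 * (u ^ 2 * ℓ * q) ≤ N := by
    refine le_trans ?_ hsize
    calc 72 * (u ^ 2 * ℓ * q) = 72 * u ^ 2 * 1 * ℓ * q := by ring
      _ ≤ 72 * u ^ 2 * u * ℓ * q := by gcongr
      _ = _ := by ring
  have h8 : N * N ≤ 8 ^ ℓ := by
    have h1 : ((N * N : ℕ) : ℝ) ≤ ((8 ^ ℓ : ℕ) : ℝ) := by
      push_cast
      calc (N : ℝ) * N = Real.exp (2 * Real.log N) := by
            rw [two_mul, Real.exp_add, Real.exp_log hN0]
        _ ≤ Real.exp ℓ := Real.exp_le_exp.2 hℓge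
        _ = Real.exp 1 ^ ℓ := by rw [← Real.exp_nat_mul, mul_one]
        _ ≤ 8 ^ ℓ := by
            apply pow_le_pow_left₀ (Real.exp_pos _).le
            have := Real.exp_one_lt_d9
            linarith
    exact_mod_cast h1
  have hkku : kk ≤ 2 * u := by
    have h1 : (k : ℝ) ≤ n := hkle.trans (by nlinarith [Nat.cast_nonneg (α := ℝ) n])
    have h2 : k ≤ n := by exact_mod_cast h1
    have h3 : n ≤ u := by rw [hu]; exact Nat.le_mul_of_pos_left n hC1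
    omega
  set Z : ℕ := (2 * (9 * (2 * u) * (2 * u * ℓ) * q)) * q + 1 with hZ
  have hZ8 : 4 * Z ≤ 8 ^ ℓ := by
    refine le_trans ?_ h8
    have h1 : 4 * Z = 4 * (72 * (u ^ 2 * ℓ * q)) * q + 4 := by rw [hZ]; ring
    rw [h1]
    have h2 : 4 * (72 * (u ^ 2 * ℓ * q)) * q ≤ 4 * N * q :=
      Nat.mul_le_mul_right _ (Nat.mul_le_mul_left _ hsize2)
    have h3 : 8 * q * N ≤ N * N := Nat.mul_le_mul_right _ hNq
    have h4 : 1 ≤ q * N := Nat.mul_pos hq1 (by omega)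
    have h5 : 4 * N * q = 4 * (q * N) := by ring
    have h6 : 8 * q * N = 8 * (q * N) := by ring
    omega
  apply core G hinj hval (k := k) (kk := kk) (L := 2 * u * ℓ) (N := N) (s := s) hu1 hGU hGV
    (by omega) hkk2 (hcons k hkle) (by positivity) ?_ ?_ ?_ f hf hsep
  · refine le_trans (le_of_eq ?_) hsize
    ring
  · have h1 : (s : ℝ) ≤ ((2 ^ kk : ℕ) : ℝ) := by
      refine hcon.trans ?_
      push_cast
      have h2 : (2 : ℝ) ^ kk = Real.exp (kk * Real.log 2) := by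
        rw [Real.exp_nat_mul, Real.exp_log (by norm_num)]
      rw [h2]
      apply Real.exp_le_exp.2
      have h3 := Real.log_two_gt_d9
      have h4 : (kk : ℝ) * (1 / 2) ≤ kk * Real.log 2 :=
        mul_le_mul_of_nonneg_left (by linarith) (by positivity)
      refine le_trans ?_ h4
      have h5 : γ₁ * c₁ / 12 * X = (γ₁ * c₁ * X) / 12 := by ring
      rw [h5]
      linarith
    exact_mod_cast h1
  · have h1 : 2 ^ kk * Z ^ (2 * u) ≤ (2 * Z) ^ (2 * u) := by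
      rw [mul_pow]
      exact Nat.mul_le_mul_right _ (Nat.pow_le_pow_right (by norm_num) hkku)
    have h2 : (2 * Z) ^ (2 * u) + 1 < (4 * Z) ^ (2 * u) := by
      have h3 : (4 * Z) ^ (2 * u) = 2 ^ (2 * u) * (2 * Z) ^ (2 * u) := by
        rw [← mul_pow]; ring_nf
      rw [h3]
      have h4 : 4 ≤ 2 ^ (2 * u) := by
        calc 4 = 2 ^ 2 := by norm_num
          _ ≤ 2 ^ (2 * u) := Nat.pow_le_pow_right (by norm_num) (by omega)
      have hZpos : 0 < 2 * Z := by rw [hZ]; omega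
      have h5 : 1 ≤ (2 * Z) ^ (2 * u) := Nat.one_le_pow _ _ hZpos
      have h6 : 4 * (2 * Z) ^ (2 * u) ≤ 2 ^ (2 * u) * (2 * Z) ^ (2 * u) :=
        Nat.mul_le_mul_right _ h4
      generalize (2 * Z) ^ (2 * u) = Y at h5 h6 ⊢
      generalize 2 ^ (2 * u) * Y = Y' at h6 ⊢
      omega
    have h3 : (4 * Z) ^ (2 * u) ≤ 8 ^ (2 * u * ℓ) := by
      calc (4 * Z) ^ (2 * u) ≤ (8 ^ ℓ) ^ (2 * u) := Nat.pow_le_pow_left hZ8 _
        _ = 8 ^ (2 * u * ℓ) := by rw [← pow_mul, mul_comm]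
    exact lt_of_le_of_lt (Nat.add_le_add_right h1 1) (lt_of_lt_of_le h2 h3)

end Pool.Agent.MP_ec946a.Mono
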