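import Pool.Agent.Lib.MP_ec946a_Monotone.Moment

/-!
# A spread family of patterns is hit with exponentially small failure probability
-/

set_option autoImplicit false

namespace Pool.Agent.MP_ec946a.Mono

open Finset
open scoped Classical

set_option linter.unusedSectionVars false

noncomputable section

attribute [local instance 2000] decEqPair

/-- Two events depending on disjoint sets of coordinates are independent. -/
theorem indep_two {C Q : Type} [Fintype C] [Fintype Q] (S : Set C) (p r : (C → Q) → Prop)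
    (hp : ∀ y y', (∀ c ∈ S, y c = y' c) → p y → p y')
    (hr : ∀ y y', (∀ c, c ∉ S → y c = y' c) → r y → r y') :
    (univ.filter fun y => p y ∧ r y).card * Fintype.card (C → Q) =
      (univ.filter p).card * (univ.filter r).card := by
  rw [← card_univ, ← card_product, ← card_product]
  let mix : (C → Q) → (C → Q) → (C → Q) := fun w w' c => if c ∈ S then w c else w' c
  have hm1 : ∀ w w' c, c ∈ S → mix w w' c = w c := fun w w' c hc => if_pos hc
  have hm2 : ∀ w w' c, c ∉ S → mix w w' c = w' c := fun w w' c hc => if_neg hc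
  have hmm : ∀ w w', mix (mix w w') (mix w' w) = w := by
    intro w w'
    funext c
    by_cases hc : c ∈ S
    · rw [hm1 _ _ c hc, hm1 _ _ c hc]
    · rw [hm2 _ _ c hc, hm2 _ _ c hc]
  refine card_bij' (fun x _ => (mix x.1 x.2, mix x.2 x.1)) (fun x _ => (mix x.1 x.2, mix x.2 x.1))
    ?_ ?_ ?_ ?_
  · rintro ⟨w, w'⟩ h
    simp only [mem_product, mem_filter, mem_univ, true_and, and_true] at h ⊢
    refine ⟨hp w _ ?_ h.1, hr w _ ?_ h.2⟩
    · intro c hc; rw [hm1 _ _ c hc]
    · intro c hc; rw [hm2 _ _ c hc]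
  · rintro ⟨w, w'⟩ h
    simp only [mem_product, mem_filter, mem_univ, true_and, and_true] at h ⊢
    refine ⟨hp w _ ?_ h.1, hr w' _ ?_ h.2⟩
    · intro c hc; rw [hm1 _ _ c hc]
    · intro c hc; rw [hm2 _ _ c hc]
  · rintro ⟨w, w'⟩ _
    simp only [hmm]
  · rintro ⟨w, w'⟩ _
    simp only [hmm]

/-- Events depending on pairwise disjoint sets of coordinates are independent. -/
theorem indep_many {C Q J : Type} [Fintype C] [Fintype Q] (col : C → J)
    (p : J → (C → Q) → Prop)
    (hp : ∀ j y y', (∀ c, col c = j → y c = y' c) → p j y → p j y') (s : Finset J) :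
    ((univ.filter fun y => ∀ j ∈ s, p j y).card : ℝ) * (Fintype.card (C → Q) : ℝ) ^ s.card =
      (Fintype.card (C → Q) : ℝ) * ∏ j ∈ s, ((univ.filter (p j)).card : ℝ) := by
  induction s using Finset.induction_on with
  | empty => simp
  | insert j s hj ih =>
    rw [card_insert_of_notMem hj, prod_insert hj]
    have h1 := indep_two (C := C) (Q := Q) {c | col c = j} (p j) (fun y => ∀ i ∈ s, p i y)
      (fun y y' h => hp j y y' h)
      (by
        intro y y' h h2 i hi
        apply hp i y y' _ (h2 i hi)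
        intro c hc
        apply h
        intro hcj
        have hcj : col c = j := hcj
        rw [hcj] at hc
        subst hc
        exact hj hi)
    have h2 : (univ.filter fun y : C → Q => ∀ i ∈ insert j s, p i y) =
        univ.filter fun y : C → Q => p j y ∧ ∀ i ∈ s, p i y := by
      ext y
      simp
    rw [h2, pow_succ]
    have h3 : ((univ.filter fun y : C → Q => p j y ∧ ∀ i ∈ s, p i y).card : ℝ) *
        (Fintype.card (C → Q) : ℝ) = ((univ.filter (p j)).card : ℝ) *
        ((univ.filter fun y : C → Q => ∀ i ∈ s, p i y).card : ℝ) := by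
      have h1' : (univ.filter fun y : C → Q => p j y ∧ ∀ i ∈ s, p i y).card *
          Fintype.card (C → Q) = (univ.filter (p j)).card *
          (univ.filter fun y : C → Q => ∀ i ∈ s, p i y).card := by
        convert h1
      exact_mod_cast h1'
    calc _ = (((univ.filter fun y : C → Q => p j y ∧ ∀ i ∈ s, p i y).card : ℝ) *
        (Fintype.card (C → Q) : ℝ)) * (Fintype.card (C → Q) : ℝ) ^ s.card := by ring
      _ = ((univ.filter (p j)).card : ℝ) *
        (((univ.filter fun y : C → Q => ∀ i ∈ s, p i y).card : ℝ) *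
          (Fintype.card (C → Q) : ℝ) ^ s.card) := by rw [h3]; ring
      _ = _ := by rw [ih]; ring

/-- AM-GM. -/
theorem prod_le_pow_avg {J : Type} (s : Finset J) (hs : s.Nonempty) (f : J → ℝ)
    (hf : ∀ j ∈ s, 0 ≤ f j) {d : ℝ} (hd : ∑ j ∈ s, f j ≤ s.card * d) :
    ∏ j ∈ s, f j ≤ d ^ s.card := by
  have hc : (0 : ℝ) < s.card := by exact_mod_cast hs.card_pos
  have h := Real.geom_mean_le_arith_mean_weighted s (fun _ => (1 : ℝ) / s.card) f
    (fun _ _ => by positivity) (by rw [sum_const, nsmul_eq_mul]; field_simp) hf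
  rw [← mul_sum] at h
  have h1 : (1 : ℝ) / s.card * ∑ j ∈ s, f j ≤ d := by
    rw [one_div, inv_mul_le_iff₀ hc]
    exact hd
  have h2 : ∏ j ∈ s, f j ^ ((1 : ℝ) / s.card) = (∏ j ∈ s, f j) ^ ((1 : ℝ) / s.card) :=
    Real.finsetProd_rpow s f hf _
  rw [h2] at h
  have h3 : 0 ≤ ∏ j ∈ s, f j := prod_nonneg hf
  have h4 : ((∏ j ∈ s, f j) ^ ((1 : ℝ) / s.card)) ^ s.card = ∏ j ∈ s, f j := by
    rw [← Real.rpow_natCast, ← Real.rpow_mul h3, one_div, inv_mul_cancel₀ hc.ne', Real.rpow_one]
  rw [← h4]
  exact pow_le_pow_left₀ (Real.rpow_nonneg h3 _) (h.trans h1) _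

variable {ι A Q : Type} [Fintype ι] [Fintype A] [Fintype Q]

theorem spread_hit {K : Finset ι} {P : Finset (ι → A)} (hP : P.Nonempty) {a : ℝ} (ha : 0 < a)
    (hs : ∀ J ⊆ K, ∀ β : ι → A,
      ((P.filter fun x => ∀ i ∈ J, x i = β i).card : ℝ) * a ^ J.card ≤ P.card)
    (z : (ι → A) → ι → Q) {L : ℕ} (hL : 0 < L)
    (hnum : (1 + ((L * Fintype.card Q : ℕ) : ℝ) / a) ^ K.card ≤ 9 / 8) :
    (8 : ℝ) ^ L *
      ((univ.filter fun y : ι × A → Q => ∀ x ∈ P, ∃ i ∈ K, y (i, x i) ≠ z x i).card : ℝ) ≤
      (Fintype.card (ι × A → Q) : ℝ) := by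
  have hne : Nonempty (Fin L) := ⟨⟨0, hL⟩⟩
  set bad : Fin L → (ι × A → Fin L) → (ι × A → Q) → Prop := fun j c y =>
    ∀ x ∈ P, ∃ i ∈ K, (c (i, x i), y (i, x i)) ≠ (j, z x i) with hbad
  set W : ℝ := (Fintype.card (ι × A → Q) : ℝ) with hW
  set V : ℝ := (Fintype.card (ι × A → Fin L) : ℝ) with hV
  have hVpos : 0 < V := by
    rw [hV]
    exact_mod_cast Fintype.card_pos
  -- each colour, on average over the colourings
  have h1 : ∀ j : Fin L, 8 * ∑ c : ι × A → Fin L, ((univ.filter (bad j c)).card : ℝ) ≤ V * W := by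
    intro j
    have h2 := second_moment (B := Fin L × Q) hP ha hs (fun x i => (j, z x i)) (by
      rw [Fintype.card_prod, Fintype.card_fin]; exact hnum)
    have h3 : ((univ.filter fun w : ι × A → Fin L × Q =>
        ∀ x ∈ P, ∃ i ∈ K, w (i, x i) ≠ (j, z x i)).card : ℝ) =
        ∑ c : ι × A → Fin L, ((univ.filter (bad j c)).card : ℝ) := by
      have h4 : (univ.filter fun w : ι × A → Fin L × Q =>
          ∀ x ∈ P, ∃ i ∈ K, w (i, x i) ≠ (j, z x i)).card =
          (univ.sigma fun c : ι × A → Fin L => univ.filter (bad j c)).card := by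
        refine card_bij' (fun w _ => ⟨fun e => (w e).1, fun e => (w e).2⟩)
          (fun s _ => fun e => (s.1 e, s.2 e)) ?_ ?_ ?_ ?_
        · intro w hw
          rw [mem_sigma, mem_filter]
          exact ⟨mem_univ _, mem_univ _, (mem_filter.1 hw).2⟩
        · rintro ⟨c, y⟩ hw
          rw [mem_sigma, mem_filter] at hw
          exact mem_filter.2 ⟨mem_univ _, hw.2.2⟩
        · intro w _
          rfl
        · rintro ⟨c, y⟩ _
          rfl
      rw [h4, card_sigma]
      push_cast
      rfl
    rw [← h3]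
    refine h2.trans (le_of_eq ?_)
    rw [hV, hW, Fintype.card_fun, Fintype.card_fun, Fintype.card_prod, Fintype.card_fin]
    push_cast
    rw [mul_pow]
  have h5 : ∑ c : ι × A → Fin L, ∑ j : Fin L, ((univ.filter (bad j c)).card : ℝ) ≤
      ∑ _c : ι × A → Fin L, (L : ℝ) * (W / 8) := by
    rw [sum_comm, sum_const, card_univ, nsmul_eq_mul]
    have h6 : ∀ j ∈ (univ : Finset (Fin L)),
        ∑ c : ι × A → Fin L, ((univ.filter (bad j c)).card : ℝ) ≤ V * W / 8 := by
      intro j _
      have := h1 j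
      linarith
    refine (sum_le_sum h6).trans ?_
    rw [sum_const, card_univ, Fintype.card_fin, nsmul_eq_mul]
    apply le_of_eq
    rw [hV]
    ring
  obtain ⟨c, -, hc⟩ := exists_le_of_sum_le univ_nonempty h5
  -- independence for this colouring
  have hindep : ((univ.filter fun y : ι × A → Q =>
      ∀ j ∈ (univ : Finset (Fin L)), bad j c y).card : ℝ) * W ^ L =
      W * ∏ j : Fin L, ((univ.filter (bad j c)).card : ℝ) := by
    have := indep_many (C := ι × A) (Q := Q) c (fun j => bad j c) (by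
      intro j y y' h hy x hx
      obtain ⟨i, hi, hne⟩ := hy x hx
      refine ⟨i, hi, ?_⟩
      intro h2
      apply hne
      have h3 : c (i, x i) = j := (Prod.ext_iff.1 h2).1
      rw [h _ h3]
      exact h2) univ
    rw [card_univ, Fintype.card_fin] at this
    convert this
  have hsub : ((univ.filter fun y : ι × A → Q => ∀ x ∈ P, ∃ i ∈ K, y (i, x i) ≠ z x i).card : ℝ) ≤
      ((univ.filter fun y : ι × A → Q => ∀ j ∈ (univ : Finset (Fin L)), bad j c y).card : ℝ) := by
    have : (univ.filter fun y : ι × A → Q => ∀ x ∈ P, ∃ i ∈ K, y (i, x i) ≠ z x i) ⊆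
        univ.filter fun y : ι × A → Q => ∀ j ∈ (univ : Finset (Fin L)), bad j c y := by
      intro y hy
      rw [mem_filter] at hy ⊢
      refine ⟨mem_univ _, ?_⟩
      intro j _ x hx
      obtain ⟨i, hi, hne⟩ := hy.2 x hx
      exact ⟨i, hi, fun h => hne (Prod.ext_iff.1 h).2⟩
    exact_mod_cast card_le_card this
  rcases (Fintype.card (ι × A → Q)).eq_zero_or_pos with h0 | h0
  · have : IsEmpty (ι × A → Q) := Fintype.card_eq_zero_iff.1 h0
    have h7 : (univ.filter fun y : ι × A → Q => ∀ x ∈ P, ∃ i ∈ K, y (i, x i) ≠ z x i) = ∅ := by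
      ext y
      exact this.elim y
    rw [h7, card_empty, hW]
    simp
  have hWpos : 0 < W := by rw [hW]; exact_mod_cast h0
  have hprod : ∏ j : Fin L, ((univ.filter (bad j c)).card : ℝ) ≤ (W / 8) ^ L := by
    have := prod_le_pow_avg (univ : Finset (Fin L)) univ_nonempty
      (fun j => ((univ.filter (bad j c)).card : ℝ)) (fun _ _ => by positivity) (d := W / 8) (by
        rw [card_univ, Fintype.card_fin]
        exact hc)
    rwa [card_univ, Fintype.card_fin] at this
  have h8 : ((univ.filter fun y : ι × A → Q =>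
      ∀ j ∈ (univ : Finset (Fin L)), bad j c y).card : ℝ) * W ^ L ≤ W * (W / 8) ^ L := by
    have h9 := mul_le_mul_of_nonneg_left hprod hWpos.le
    rw [← hindep] at h9
    exact h9
  rw [div_pow, mul_div_assoc', le_div_iff₀ (by positivity)] at h8
  have h9 : (8 : ℝ) ^ L * ((univ.filter fun y : ι × A → Q =>
      ∀ j ∈ (univ : Finset (Fin L)), bad j c y).card : ℝ) * W ^ L ≤ W * W ^ L := by
    linarith
  have h10 := le_of_mul_le_mul_right h9 (by positivity)
  refine le_trans ?_ h10
  exact mul_le_mul_of_nonneg_left hsub (by positivity)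

end

end Pool.Agent.MP_ec946a.Mono
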