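import Mathlib

/-!
# The second moment estimate
-/

set_option autoImplicit false

namespace Pool.Agent.MP_ec946a.Mono

open Finset
open scoped Classical

set_option linter.unusedSectionVars false

noncomputable section

/-- Equality of pairs is decided classically, as for all other types of this file. -/
@[reducible] def decEqPair (α β : Type) : DecidableEq (α × β) :=
  fun a b => Classical.propDecidable (a = b)

attribute [local instance 2000] decEqPair

/-- The number of functions with prescribed values on `S`. -/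
theorem card_prescribed {C B : Type} [Fintype C] [Fintype B] (S : Finset C) (b : C → B) :
    (univ.filter fun w : C → B => ∀ c ∈ S, w c = b c).card * Fintype.card B ^ S.card =
      Fintype.card B ^ Fintype.card C := by
  have h : (univ.filter fun w : C → B => ∀ c ∈ S, w c = b c) =
      Fintype.piFinset (fun c => if c ∈ S then {b c} else univ) := by
    ext w
    simp only [mem_filter, mem_univ, true_and, Fintype.mem_piFinset]
    constructor
    · intro h c
      by_cases hc : c ∈ S
      · simp [hc, h]
      · simp [hc]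
    · intro h c hc
      simpa [hc] using h c
  have h2 : ∀ c, (if c ∈ S then {b c} else univ : Finset B).card =
      if c ∈ S then 1 else Fintype.card B := by
    intro c
    split_ifs <;> simp
  rw [h, Fintype.card_piFinset]
  simp_rw [h2]
  rw [prod_ite]
  simp only [prod_const_one, one_mul, prod_const]
  rw [← pow_add]
  congr 1
  have h3 := card_filter_add_card_filter_not (s := (univ : Finset C)) (fun c => c ∈ S)
  have h4 : (univ.filter fun c => c ∈ S) = S := by
    ext c; simp
  rw [h4, card_univ] at h3
  rw [add_comm]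
  exact h3

variable {ι A B : Type} [Fintype ι] [Fintype A] [Fintype B]

/-- The cells of the pointers `x i`, `i ∈ K`. -/
def cells (K : Finset ι) (x : ι → A) : Finset (ι × A) := K.image fun i => (i, x i)

theorem card_cells (K : Finset ι) (x : ι → A) : (cells K x).card = K.card := by
  unfold cells
  apply card_image_of_injective
  intro i j h
  exact (Prod.ext_iff.1 h).1

theorem match_iff (K : Finset ι) (x : ι → A) (z : ι → B) (w : ι × A → B) :
    (∀ i ∈ K, w (i, x i) = z i) ↔ ∀ c ∈ cells K x, w c = z c.1 := by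
  unfold cells
  simp

theorem card_match (K : Finset ι) (x : ι → A) (z : ι → B) :
    (univ.filter fun w : ι × A → B => ∀ i ∈ K, w (i, x i) = z i).card *
      Fintype.card B ^ K.card = Fintype.card B ^ Fintype.card (ι × A) := by
  have := card_prescribed (C := ι × A) (B := B) (cells K x) (fun c => z c.1)
  rw [card_cells] at this
  have h : (univ.filter fun w : ι × A → B => ∀ i ∈ K, w (i, x i) = z i) =
      univ.filter fun w : ι × A → B => ∀ c ∈ cells K x, w c = z c.1 := by
    ext w
    simp only [mem_filter, mem_univ, true_and]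
    exact match_iff K x z w
  rw [h]
  exact this

theorem card_inter_cells (K : Finset ι) (x x' : ι → A) :
    (cells K x ∩ cells K x').card = (K.filter fun i => x i = x' i).card := by
  have : cells K x ∩ cells K x' = (K.filter fun i => x i = x' i).image fun i => (i, x i) := by
    ext ⟨i, α⟩
    simp only [cells, mem_inter, mem_image, mem_filter, Prod.mk.injEq]
    constructor
    · rintro ⟨⟨j, hj, rfl, rfl⟩, ⟨j', hj', h1, h2⟩⟩
      subst h1
      exact ⟨j', ⟨hj, h2.symm⟩, rfl, rfl⟩
    · rintro ⟨j, ⟨hj, h⟩, rfl, rfl⟩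
      exact ⟨⟨j, hj, rfl, rfl⟩, ⟨j, hj, rfl, h.symm⟩⟩
  rw [this, card_image_of_injective]
  intro i j h
  exact (Prod.ext_iff.1 h).1

theorem card_match_two (K : Finset ι) (x x' : ι → A) (z z' : ι → B) :
    (univ.filter fun w : ι × A → B =>
      (∀ i ∈ K, w (i, x i) = z i) ∧ ∀ i ∈ K, w (i, x' i) = z' i).card *
      Fintype.card B ^ (2 * K.card) ≤
    Fintype.card B ^ Fintype.card (ι × A) *
      Fintype.card B ^ (K.filter fun i => x i = x' i).card := by
  rcases (univ.filter fun w : ι × A → B =>
      (∀ i ∈ K, w (i, x i) = z i) ∧ ∀ i ∈ K, w (i, x' i) = z' i).eq_empty_or_nonempty with h | h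
  · rw [h]
    simp
  · obtain ⟨w₀, hw₀⟩ := h
    rw [mem_filter] at hw₀
    obtain ⟨-, h1, h2⟩ := hw₀
    rw [match_iff] at h1 h2
    have h3 : (univ.filter fun w : ι × A → B =>
      (∀ i ∈ K, w (i, x i) = z i) ∧ ∀ i ∈ K, w (i, x' i) = z' i).card ≤
      (univ.filter fun w : ι × A → B => ∀ c ∈ cells K x ∪ cells K x', w c = w₀ c).card := by
      apply card_le_card
      intro w hw
      rw [mem_filter] at hw ⊢
      obtain ⟨-, h4, h5⟩ := hw
      rw [match_iff] at h4 h5
      refine ⟨mem_univ _, ?_⟩
      intro c hc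
      rcases mem_union.1 hc with hc | hc
      · rw [h4 c hc, h1 c hc]
      · rw [h5 c hc, h2 c hc]
    have h4 := card_prescribed (C := ι × A) (B := B) (cells K x ∪ cells K x') w₀
    have h5 := card_union_add_card_inter (cells K x) (cells K x')
    rw [card_cells, card_cells, card_inter_cells] at h5
    have h6 : 2 * K.card = (cells K x ∪ cells K x').card +
      (K.filter fun i => x i = x' i).card := by omega
    rw [h6, pow_add, ← mul_assoc, ← h4]
    exact Nat.mul_le_mul_right _ (Nat.mul_le_mul_right _ h3)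

/-- The agreement sum. -/
theorem sum_agree {K : Finset ι} {P : Finset (ι → A)} {a t : ℝ} (ha : 0 < a) (ht : 0 ≤ t)
    (hs : ∀ J ⊆ K, ∀ β : ι → A,
      ((P.filter fun x => ∀ i ∈ J, x i = β i).card : ℝ) * a ^ J.card ≤ P.card) (x : ι → A) :
    ∑ x' ∈ P, t ^ (K.filter fun i => x i = x' i).card ≤ (P.card : ℝ) * (1 + t / a) ^ K.card := by
  have h1 : ∀ x' ∈ P, t ^ (K.filter fun i => x i = x' i).card ≤
      ∑ J ∈ K.powerset, if (∀ i ∈ J, x' i = x i) then t ^ J.card else 0 := by
    intro x' _
    have h2 : (K.filter fun i => x i = x' i) ∈ K.powerset := by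
      rw [mem_powerset]; exact filter_subset _ _
    have h3 := single_le_sum (f := fun J : Finset ι =>
      if (∀ i ∈ J, x' i = x i) then t ^ J.card else 0) (s := K.powerset) (by
        intro J _
        split_ifs
        · positivity
        · exact le_rfl) h2
    refine le_trans (le_of_eq ?_) h3
    have h4 : ∀ i ∈ K.filter (fun i => x i = x' i), x' i = x i := by
      intro i hi
      exact (mem_filter.1 hi).2.symm
    exact (if_pos h4).symm
  refine (sum_le_sum h1).trans ?_
  rw [sum_comm]
  have h4 : ∀ J ∈ K.powerset, (∑ x' ∈ P, if (∀ i ∈ J, x' i = x i) then t ^ J.card else 0) ≤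
      (P.card : ℝ) * (t / a) ^ J.card := by
    intro J hJ
    rw [← sum_filter, sum_const, nsmul_eq_mul]
    have h5 := hs J (mem_powerset.1 hJ) x
    rw [div_pow, mul_div_assoc', le_div_iff₀ (by positivity)]
    calc ((P.filter fun x' => ∀ i ∈ J, x' i = x i).card : ℝ) * t ^ J.card * a ^ J.card
        = (((P.filter fun x' => ∀ i ∈ J, x' i = x i).card : ℝ) * a ^ J.card) * t ^ J.card := by
          ring
      _ ≤ P.card * t ^ J.card := by
          apply mul_le_mul_of_nonneg_right h5 (by positivity)
  refine (sum_le_sum h4).trans ?_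
  rw [← mul_sum]
  apply mul_le_mul_of_nonneg_left _ (by positivity)
  have h6 := prod_one_add (f := fun _ : ι => t / a) K
  simp only [prod_const] at h6
  rw [h6]

theorem second_moment {K : Finset ι} {P : Finset (ι → A)} (hP : P.Nonempty) {a : ℝ} (ha : 0 < a)
    (hs : ∀ J ⊆ K, ∀ β : ι → A,
      ((P.filter fun x => ∀ i ∈ J, x i = β i).card : ℝ) * a ^ J.card ≤ P.card)
    (z : (ι → A) → ι → B) (hnum : (1 + (Fintype.card B : ℝ) / a) ^ K.card ≤ 9 / 8) :
    8 * ((univ.filter fun w : ι × A → B => ∀ x ∈ P, ∃ i ∈ K, w (i, x i) ≠ z x i).card : ℝ) ≤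
      (Fintype.card B : ℝ) ^ Fintype.card (ι × A) := by
  set t : ℝ := (Fintype.card B : ℝ) with ht
  set T : ℝ := t ^ Fintype.card (ι × A) with hT
  have ht0 : 0 ≤ t := by positivity
  set Mt : (ι → A) → (ι × A → B) → Prop := fun x w => ∀ i ∈ K, w (i, x i) = z x i with hMt
  set N : (ι × A → B) → ℝ := fun w => ∑ x ∈ P, if Mt x w then (1 : ℝ) else 0 with hN
  have hp : (0 : ℝ) < P.card := by exact_mod_cast hP.card_pos
  -- first moment
  have hm1 : (∑ w, N w) * t ^ K.card = T * P.card := by
    rw [hN]
    simp only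
    rw [sum_comm, sum_mul]
    have : ∀ x ∈ P, (∑ w : ι × A → B, if Mt x w then (1 : ℝ) else 0) * t ^ K.card = T := by
      intro x _
      rw [sum_boole, hT, ht]
      have := card_match K x (z x)
      exact_mod_cast this
    rw [sum_congr rfl this, sum_const, nsmul_eq_mul, mul_comm]
  -- second moment
  have hm2 : (∑ w, N w ^ 2) * t ^ (2 * K.card) ≤ T * ((P.card : ℝ) ^ 2 * (9 / 8)) := by
    have h1 : ∀ w, N w ^ 2 = ∑ x ∈ P, ∑ x' ∈ P, if Mt x w ∧ Mt x' w then (1 : ℝ) else 0 := by
      intro w
      rw [hN, sq]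
      simp only
      rw [sum_mul_sum]
      apply sum_congr rfl
      intro x _
      apply sum_congr rfl
      intro x' _
      by_cases h1 : Mt x w <;> by_cases h2 : Mt x' w <;> simp [h1, h2]
    simp_rw [h1]
    rw [sum_comm]
    have h2 : ∀ x ∈ P, (∑ w : ι × A → B, ∑ x' ∈ P, if Mt x w ∧ Mt x' w then (1 : ℝ) else 0) *
        t ^ (2 * K.card) ≤ T * ((P.card : ℝ) * (9 / 8)) := by
      intro x _
      rw [sum_comm, sum_mul]
      have h3 : ∀ x' ∈ P, (∑ w : ι × A → B, if Mt x w ∧ Mt x' w then (1 : ℝ) else 0) *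
          t ^ (2 * K.card) ≤ T * t ^ (K.filter fun i => x i = x' i).card := by
        intro x' _
        rw [sum_boole, hT, ht]
        have := card_match_two K x x' (z x) (z x')
        exact_mod_cast this
      refine (sum_le_sum h3).trans ?_
      rw [← mul_sum]
      apply mul_le_mul_of_nonneg_left _ (by positivity)
      refine (sum_agree ha ht0 hs x).trans ?_
      exact mul_le_mul_of_nonneg_left hnum hp.le
    rw [sum_mul]
    refine (sum_le_sum h2).trans ?_
    rw [sum_const, nsmul_eq_mul]
    apply le_of_eq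
    ring
  -- variance
  have hv : ∑ w, (N w * t ^ K.card - P.card) ^ 2 ≤ T * (P.card : ℝ) ^ 2 / 8 := by
    have h1 : ∀ w, (N w * t ^ K.card - P.card) ^ 2 = N w ^ 2 * t ^ (2 * K.card) -
        2 * P.card * (N w * t ^ K.card) + (P.card : ℝ) ^ 2 := by
      intro w
      rw [mul_comm 2 K.card, pow_mul]
      ring
    simp_rw [h1]
    rw [sum_add_distrib, sum_sub_distrib, ← sum_mul, ← mul_sum, ← sum_mul, hm1, sum_const,
      nsmul_eq_mul]
    have hcard : ((univ : Finset (ι × A → B)).card : ℝ) = T := by
      rw [card_univ, Fintype.card_fun, hT, ht]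
      push_cast
      rfl
    rw [hcard]
    nlinarith [hm2]
  have hlow : (P.card : ℝ) ^ 2 *
      ((univ.filter fun w : ι × A → B => ∀ x ∈ P, ∃ i ∈ K, w (i, x i) ≠ z x i).card : ℝ) ≤
      ∑ w, (N w * t ^ K.card - P.card) ^ 2 := by
    rw [mul_comm, ← nsmul_eq_mul, ← sum_const]
    refine le_trans ?_ (sum_le_sum_of_subset_of_nonneg
      (filter_subset (fun w : ι × A → B => ∀ x ∈ P, ∃ i ∈ K, w (i, x i) ≠ z x i) univ) ?_)
    · apply sum_le_sum
      intro w hw
      have hw := (mem_filter.1 hw).2
      have : N w = 0 := by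
        rw [hN]
        simp only
        apply sum_eq_zero
        intro x hx
        rw [if_neg]
        intro h
        obtain ⟨i, hi, hne⟩ := hw x hx
        exact hne (h i hi)
      rw [this]
      apply le_of_eq
      ring
    · intro w _ _
      positivity
  have h3 : (P.card : ℝ) ^ 2 *
      (8 * ((univ.filter fun w : ι × A → B => ∀ x ∈ P, ∃ i ∈ K, w (i, x i) ≠ z x i).card : ℝ)) ≤
      (P.card : ℝ) ^ 2 * T := by
    nlinarith [hlow, hv]
  exact le_of_mul_le_mul_left h3 (by positivity)

end

end Pool.Agent.MP_ec946a.Mono
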