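import Pool.Agent.Lib.MP_ec946a_Monotone.Hit

/-!
# Structured sets of pointers, and the full range lemma
-/

set_option autoImplicit false

namespace Pool.Agent.MP_ec946a.Mono

open Finset
open scoped Classical

set_option linter.unusedSectionVars false

noncomputable section

attribute [local instance 2000] decEqPair

variable {ι A Q : Type} [Fintype ι] [Fintype A] [Fintype Q]

/-- `P` is spread outside `I`. -/
def Spread (a : ℕ) (P : Finset (ι → A)) (I : Finset ι) : Prop :=
  ∀ J : Finset ι, Disjoint J I → ∀ β : ι → A,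
    (P.filter fun x => ∀ i ∈ J, x i = β i).card * a ^ J.card ≤ P.card

/-- `x` lies in a structured subset of `X` on which the level is at least the level of `x`. -/
def GoodPoint (a k : ℕ) (X : Finset (ι → A)) (lvl : (ι → A) → ℝ) (x : ι → A) : Prop :=
  ∃ (I : Finset ι) (P : Finset (ι → A)), I.card ≤ k ∧ x ∈ P ∧ P ⊆ X ∧
    (∀ x' ∈ P, lvl x ≤ lvl x') ∧ (∀ x' ∈ P, ∀ i ∈ I, x' i = x i) ∧ Spread a P I

theorem card_fixed (I : Finset ι) (α : ι → A) :
    (univ.filter fun x : ι → A => ∀ i ∈ I, x i = α i).card * Fintype.card A ^ I.card =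
      Fintype.card A ^ Fintype.card ι := card_prescribed I α

theorem card_bad {a b : ℕ} (k : ℕ) (hb : 1 ≤ b) (hA : Fintype.card A = a * b)
    (X : Finset (ι → A)) (lvl : (ι → A) → ℝ) :
    (X.filter fun x => ¬ GoodPoint a k X lvl x).card * b ^ (k + 1) ≤
      Fintype.card A ^ Fintype.card ι := by
  set Z := X.filter fun x => ¬ GoodPoint a k X lvl x with hZ
  rcases Z.eq_empty_or_nonempty with h0 | h0
  · rw [h0]; simp
  obtain ⟨x₀, hx₀⟩ := h0
  set S : Finset (Finset ι × (ι → A)) := univ.filter fun s =>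
    Z.card ≤ (Z.filter fun x => ∀ i ∈ s.1, x i = s.2 i).card * a ^ s.1.card with hS
  have hSne : S.Nonempty := by
    refine ⟨(∅, x₀), ?_⟩
    rw [hS, mem_filter]
    refine ⟨mem_univ _, ?_⟩
    simp
  obtain ⟨⟨I, α⟩, hIS, hmax⟩ := exists_max_image S (fun s => s.1.card) hSne
  rw [hS, mem_filter] at hIS
  have hI : Z.card ≤ (Z.filter fun x => ∀ i ∈ I, x i = α i).card * a ^ I.card := hIS.2
  set P := Z.filter fun x => ∀ i ∈ I, x i = α i with hP
  have hZpos : 0 < Z.card := card_pos.2 ⟨x₀, hx₀⟩
  have hPpos : 0 < P.card := by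
    rcases P.card.eq_zero_or_pos with h | h
    · rw [h, zero_mul] at hI
      omega
    · exact h
  have hspread : Spread a P I := by
    intro J hJ β
    by_contra hcon
    push Not at hcon
    set β' : ι → A := fun i => if i ∈ J then β i else α i with hβ'
    have h1 : (P.filter fun x => ∀ i ∈ J, x i = β i) =
        Z.filter fun x => ∀ i ∈ I ∪ J, x i = β' i := by
      ext x
      simp only [hP, mem_filter, mem_union]
      constructor
      · rintro ⟨⟨h2, h3⟩, h4⟩
        refine ⟨h2, ?_⟩
        intro i hi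
        by_cases hiJ : i ∈ J
        · rw [hβ']; simp only [hiJ, if_true]; exact h4 i hiJ
        · rw [hβ']; simp only [hiJ, if_false]
          exact h3 i (hi.resolve_right hiJ)
      · rintro ⟨h2, h3⟩
        refine ⟨⟨h2, ?_⟩, ?_⟩
        · intro i hi
          have hiJ : i ∉ J := fun h => (disjoint_left.1 hJ h hi)
          have := h3 i (Or.inl hi)
          rw [hβ'] at this
          simpa only [hiJ, if_false] using this
        · intro i hi
          have := h3 i (Or.inr hi)
          rw [hβ'] at this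
          simpa only [hi, if_true] using this
    have hJne : 1 ≤ J.card := by
      rcases J.eq_empty_or_nonempty with h | h
      · subst h
        simp at hcon
      · exact card_pos.2 h
    have hcard : (I ∪ J).card = I.card + J.card := card_union_of_disjoint hJ.symm
    have h2 : (I ∪ J, β') ∈ S := by
      rw [hS, mem_filter]
      refine ⟨mem_univ _, ?_⟩
      simp only
      rw [← h1, hcard, pow_add]
      calc Z.card ≤ P.card * a ^ I.card := hI
        _ ≤ ((P.filter fun x => ∀ i ∈ J, x i = β i).card * a ^ J.card) * a ^ I.card :=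
          Nat.mul_le_mul_right _ hcon.le
        _ = _ := by ring
    have h3 := hmax _ h2
    simp only at h3
    omega
  obtain ⟨x₁, hx₁, hmin⟩ := exists_min_image P lvl (card_pos.1 hPpos)
  have hkI : k < I.card := by
    by_contra hcon
    push Not at hcon
    have hx₁Z : x₁ ∈ Z := (mem_filter.1 hx₁).1
    have hbad : ¬ GoodPoint a k X lvl x₁ := (mem_filter.1 hx₁Z).2
    apply hbad
    refine ⟨I, P, hcon, hx₁, ?_, hmin, ?_, hspread⟩
    · intro x hx
      exact (mem_filter.1 (mem_filter.1 hx).1).1
    · intro x hx i hi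
      rw [(mem_filter.1 hx).2 i hi, (mem_filter.1 hx₁).2 i hi]
  calc Z.card * b ^ (k + 1) ≤ Z.card * b ^ I.card :=
        Nat.mul_le_mul_left _ (Nat.pow_le_pow_right hb hkI)
    _ ≤ (P.card * a ^ I.card) * b ^ I.card := Nat.mul_le_mul_right _ hI
    _ = P.card * Fintype.card A ^ I.card := by rw [hA, mul_pow]; ring
    _ ≤ (univ.filter fun x : ι → A => ∀ i ∈ I, x i = α i).card * Fintype.card A ^ I.card := by
        apply Nat.mul_le_mul_right
        apply card_le_card
        intro x hx
        exact mem_filter.2 ⟨mem_univ _, (mem_filter.1 hx).2⟩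
    _ = _ := card_fixed I α

/-- `y` is compatible with the partial table `p`. -/
def Compat (p : ι → Option (A × Q)) (y : ι × A → Q) : Prop :=
  ∀ i α c, p i = some (α, c) → y (i, α) = c

/-- The tables of `Y` of level less than `θ` compatible with `p`. -/
def below (Y : Finset (ι × A → Q)) (lvl : (ι × A → Q) → ℝ) (p : ι → Option (A × Q)) (θ : ℝ) :
    Finset (ι × A → Q) := Y.filter fun y => lvl y < θ ∧ Compat p y

/-- `y` lies in a small set of this form. -/
def SmallPoint (L : ℕ) (Y : Finset (ι × A → Q)) (lvl : (ι × A → Q) → ℝ) (y : ι × A → Q) : Prop :=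
  ∃ p θ, y ∈ below Y lvl p θ ∧ (below Y lvl p θ).card * 8 ^ L ≤ Fintype.card (ι × A → Q)

theorem card_small (L : ℕ) (Y : Finset (ι × A → Q)) (lvl : (ι × A → Q) → ℝ) :
    (Y.filter (SmallPoint L Y lvl)).card * 8 ^ L ≤
      (Fintype.card A * Fintype.card Q + 1) ^ Fintype.card ι * Fintype.card (ι × A → Q) := by
  set U : (ι → Option (A × Q)) → Finset (ι × A → Q) := fun p => Y.filter fun y =>
    ∃ θ, y ∈ below Y lvl p θ ∧ (below Y lvl p θ).card * 8 ^ L ≤ Fintype.card (ι × A → Q) with hU
  have h1 : Y.filter (SmallPoint L Y lvl) ⊆ univ.biUnion U := by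
    intro y hy
    rw [mem_filter] at hy
    obtain ⟨hyY, p, θ, h2, h3⟩ := hy
    rw [mem_biUnion]
    exact ⟨p, mem_univ _, mem_filter.2 ⟨hyY, θ, h2, h3⟩⟩
  have h2 : ∀ p, (U p).card * 8 ^ L ≤ Fintype.card (ι × A → Q) := by
    intro p
    rcases (U p).eq_empty_or_nonempty with h | h
    · rw [h]; simp
    obtain ⟨y, hy, hmax⟩ := exists_max_image (U p) lvl h
    rw [hU] at hy
    obtain ⟨hyY, θ, h3, h4⟩ := mem_filter.1 hy
    refine le_trans (Nat.mul_le_mul_right _ (card_le_card ?_)) h4
    intro y' hy'
    have h5 := hmax y' hy'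
    rw [hU] at hy'
    obtain ⟨hyY', θ', h6, -⟩ := mem_filter.1 hy'
    rw [below, mem_filter] at h3 h6 ⊢
    exact ⟨hyY', lt_of_le_of_lt h5 h3.2.1, h6.2.2⟩
  calc (Y.filter (SmallPoint L Y lvl)).card * 8 ^ L
      ≤ (∑ p, (U p).card) * 8 ^ L :=
        Nat.mul_le_mul_right _ ((card_le_card h1).trans card_biUnion_le)
    _ = ∑ p, (U p).card * 8 ^ L := by rw [sum_mul]
    _ ≤ ∑ _p : ι → Option (A × Q), Fintype.card (ι × A → Q) := sum_le_sum fun p _ => h2 p
    _ = _ := by
        rw [sum_const, card_univ, Fintype.card_fun, Fintype.card_option, Fintype.card_prod,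
          smul_eq_mul]

/-- The domain of a partial labeling. -/
def dom (h : ι → Option Q) : Finset ι := univ.filter fun i => h i ≠ none

theorem mem_dom (h : ι → Option Q) (i : ι) : i ∈ dom h ↔ h i ≠ none := by
  unfold dom; simp

/-- The full range lemma. -/
theorem full_range {a L : ℕ} (ha : 1 ≤ a) (hL : 0 < L) (ρ : ι → Option Q) {P : Finset (ι → A)}
    (hP : P.Nonempty) (hs : Spread a P (dom ρ)) (Y : Finset (ι × A → Q))
    (hY : ∀ y ∈ Y, ∀ x ∈ P, ∀ i c, ρ i = some c → y (i, x i) = c)
    (hnum : (1 + ((L * Fintype.card Q : ℕ) : ℝ) / a) ^ Fintype.card ι ≤ 9 / 8)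
    (hbig : Fintype.card (ι × A → Q) < Y.card * 8 ^ L) :
    ∃ x ∈ P, ∀ z : ι → Q, (∀ i c, ρ i = some c → z i = c) → ∃ y ∈ Y, ∀ i, y (i, x i) = z i := by
  by_contra hcon
  push Not at hcon
  have hne : Nonempty (ι → Q) := by
    obtain ⟨x₀, hx₀⟩ := hP
    obtain ⟨z₀, -⟩ := hcon x₀ hx₀
    exact ⟨z₀⟩
  choose! z hz1 hz2 using hcon
  set K : Finset ι := univ \ dom ρ with hK
  have hs' : ∀ J ⊆ K, ∀ β : ι → A,
      ((P.filter fun x => ∀ i ∈ J, x i = β i).card : ℝ) * (a : ℝ) ^ J.card ≤ P.card := by
    intro J hJ β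
    have hdis : Disjoint J (dom ρ) := by
      rw [disjoint_left]
      intro i hi hi2
      have := hJ hi
      rw [hK, mem_sdiff] at this
      exact this.2 hi2
    exact_mod_cast hs J hdis β
  have haR : (0 : ℝ) < a := by exact_mod_cast (by omega : 0 < a)
  have hKn : (1 + ((L * Fintype.card Q : ℕ) : ℝ) / a) ^ K.card ≤ 9 / 8 := by
    refine le_trans ?_ hnum
    apply pow_le_pow_right₀
    · have : (0 : ℝ) ≤ ((L * Fintype.card Q : ℕ) : ℝ) / a := by positivity
      linarith
    · exact card_le_univ K
  have h := spread_hit hP haR hs' z hL hKn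
  have hsub : Y ⊆ univ.filter fun y : ι × A → Q => ∀ x ∈ P, ∃ i ∈ K, y (i, x i) ≠ z x i := by
    intro y hy
    rw [mem_filter]
    refine ⟨mem_univ _, ?_⟩
    intro x hx
    obtain ⟨i, hi⟩ := hz2 x hx y hy
    refine ⟨i, ?_, hi⟩
    rw [hK, mem_sdiff]
    refine ⟨mem_univ _, ?_⟩
    intro hi2
    rw [mem_dom] at hi2
    obtain ⟨c, hc⟩ := Option.ne_none_iff_exists'.1 hi2
    apply hi
    rw [hY y hy x hx i c hc, hz1 x hx i c hc]
  have h2 : ((Y.card * 8 ^ L : ℕ) : ℝ) ≤ (Fintype.card (ι × A → Q) : ℝ) := by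
    refine le_trans ?_ h
    push_cast
    rw [mul_comm]
    apply mul_le_mul_of_nonneg_left _ (by positivity)
    exact_mod_cast card_le_card hsub
  have h3 : Y.card * 8 ^ L ≤ Fintype.card (ι × A → Q) := by exact_mod_cast h2
  omega

/-- Extension of consistent partial labelings to many vertices. -/
theorem extend_many {H : Set (ι → Option Q)} {k : ℕ}
    (hres : ∀ h ∈ H, ∀ h' : ι → Option Q, (∀ i c, h' i = some c → h i = some c) → h' ∈ H)
    (hext : ∀ h ∈ H, (dom h).card < k → ∀ i, ∃ h' ∈ H, (∀ j c, h j = some c → h' j = some c) ∧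
      h' i ≠ none) (J : Finset ι) :
    ∀ h ∈ H, (dom h ∪ J).card ≤ k → ∃ h' ∈ H, (∀ j c, h j = some c → h' j = some c) ∧
      (∀ i ∈ J, h' i ≠ none) ∧ dom h' ⊆ dom h ∪ J := by
  induction J using Finset.induction_on with
  | empty =>
    intro h hh _
    exact ⟨h, hh, fun _ _ hc => hc, by simp, by simp⟩
  | insert i J hi ih =>
    intro h hh hk
    obtain ⟨h₁, hh₁, he₁, hJ₁, hd₁⟩ := ih h hh (le_trans (card_le_card (by
      intro j hj
      rw [mem_union] at hj ⊢
      rcases hj with hj | hj
      · exact Or.inl hj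
      · exact Or.inr (mem_insert_of_mem hj))) hk)
    by_cases hi1 : h₁ i = none
    · have hid : i ∉ dom h₁ := by rw [mem_dom]; simp [hi1]
      have hlt : (dom h₁).card < k := by
        have : (insert i (dom h₁)).card ≤ (dom h ∪ insert i J).card := by
          apply card_le_card
          intro j hj
          rw [mem_insert] at hj
          rw [mem_union, mem_insert]
          rcases hj with rfl | hj
          · exact Or.inr (Or.inl rfl)
          · rcases mem_union.1 (hd₁ hj) with h | h
            · exact Or.inl h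
            · exact Or.inr (Or.inr h)
        rw [card_insert_of_notMem hid] at this
        omega
      obtain ⟨h₂, hh₂, he₂, hi₂⟩ := hext h₁ hh₁ hlt i
      set h₃ : ι → Option Q := fun j => if j ∈ dom h₁ ∨ j = i then h₂ j else none with hh₃
      refine ⟨h₃, hres h₂ hh₂ h₃ ?_, ?_, ?_, ?_⟩
      · intro j c hc
        rw [hh₃] at hc
        simp only at hc
        split_ifs at hc with h
        exact hc
      · intro j c hc
        have h4 := he₁ j c hc
        have h5 : j ∈ dom h₁ := by rw [mem_dom, h4]; simp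
        rw [hh₃]
        simp only [h5, true_or, if_true]
        exact he₂ j c h4
      · intro j hj
        rw [mem_insert] at hj
        rcases hj with rfl | hj
        · rw [hh₃]
          simp only [or_true, if_true]
          exact hi₂
        · have h4 := hJ₁ j hj
          have h5 : j ∈ dom h₁ := by rw [mem_dom]; exact h4
          obtain ⟨c, hc⟩ := Option.ne_none_iff_exists'.1 h4
          rw [hh₃]
          simp only [h5, true_or, if_true]
          rw [he₂ j c hc]
          simp
      · intro j hj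
        rw [mem_dom, hh₃] at hj
        simp only at hj
        rw [mem_union, mem_insert]
        split_ifs at hj with h
        · rcases h with h | h
          · rcases mem_union.1 (hd₁ h) with h | h
            · exact Or.inl h
            · exact Or.inr (Or.inr h)
          · exact Or.inr (Or.inl h)
        · exact absurd rfl hj
    · refine ⟨h₁, hh₁, he₁, ?_, ?_⟩
      · intro j hj
        rw [mem_insert] at hj
        rcases hj with rfl | hj
        · exact hi1
        · exact hJ₁ j hj
      · intro j hj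
        rcases mem_union.1 (hd₁ hj) with h | h
        · exact mem_union.2 (Or.inl h)
        · exact mem_union.2 (Or.inr (mem_insert_of_mem h))

end

end Pool.Agent.MP_ec946a.Mono
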