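import Pool.Agent.Lib.MP_ec946a_Monotone.Structure
import Pool.Agent.Lib.MP_ec946a_Monotone.Defs

/-!
# The walk down a monotone real circuit
-/

set_option autoImplicit false

namespace Pool.Agent.MP_ec946a.Mono

open Finset
open scoped Classical

set_option linter.unusedSectionVars false

noncomputable section

attribute [local instance 2000] decEqPair

variable {ι A Q T : Type} [Fintype ι] [Fintype A] [Fintype Q]

/-- The data of the argument. -/
structure Data (ι A Q T : Type) [Fintype ι] [Fintype A] [Fintype Q] where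
  a : ℕ
  b : ℕ
  k : ℕ
  kk : ℕ
  L : ℕ
  s : ℕ
  H : Set (ι → Option Q)
  M : (ι → A) → Set T
  F : (ι × A → Q) → Set T
  g : Fin s → Set T → ℝ
  ha : 1 ≤ a
  hb : 2 ≤ b
  hL : 0 < L
  hA : Fintype.card A = a * b
  hk : 3 * kk ≤ k
  hkk : 2 ≤ kk
  hnum : (1 + ((L * Fintype.card Q : ℕ) : ℝ) / a) ^ Fintype.card ι ≤ 9 / 8
  hX : 2 * s ≤ b ^ (kk + 1)
  hY : s * (Fintype.card A * Fintype.card Q + 1) ^ Fintype.card ι + 1 < 8 ^ L
  hH : H.Nonempty
  hres : ∀ h ∈ H, ∀ h' : ι → Option Q, (∀ i c, h' i = some c → h i = some c) → h' ∈ H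
  hext : ∀ h ∈ H, (dom h).card < k → ∀ i, ∃ h' ∈ H, (∀ j c, h j = some c → h' j = some c) ∧
      h' i ≠ none
  hvar : ∀ x, ∀ t ∈ M x, ∃ J : Finset ι, J.card ≤ 2 ∧ ∀ h ∈ H, (∀ i ∈ J, h i ≠ none) →
    ∀ y : ι × A → Q, (∀ i c, h i = some c → y (i, x i) = c) → t ∈ F y

namespace Data

variable (D : Data ι A Q T)

/-- The exceptional pointers of the first gates. -/
def Xb : ℕ → Finset (ι → A)
  | 0 => ∅
  | c + 1 => Xb c ∪ if h : c < D.s then ((univ \ Xb c).filter fun x =>
      ¬ GoodPoint D.a D.kk (univ \ Xb c) (fun x => D.g ⟨c, h⟩ (D.M x)) x) else ∅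

/-- The exceptional tables of the first gates. -/
def Yb : ℕ → Finset (ι × A → Q)
  | 0 => ∅
  | c + 1 => Yb c ∪ if h : c < D.s then ((univ \ Yb c).filter
      (SmallPoint D.L (univ \ Yb c) (fun y => D.g ⟨c, h⟩ (D.F y)))) else ∅

theorem Xb_mono {c d : ℕ} (h : c ≤ d) : D.Xb c ⊆ D.Xb d := by
  induction d, h using Nat.le_induction with
  | base => exact Subset.refl _
  | succ d _ ih =>
    rw [Xb]
    exact ih.trans subset_union_left

theorem Yb_mono {c d : ℕ} (h : c ≤ d) : D.Yb c ⊆ D.Yb d := by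
  induction d, h using Nat.le_induction with
  | base => exact Subset.refl _
  | succ d _ ih =>
    rw [Yb]
    exact ih.trans subset_union_left

theorem card_Xb (c : ℕ) :
    (D.Xb c).card * D.b ^ (D.kk + 1) ≤ c * Fintype.card A ^ Fintype.card ι := by
  have hb := D.hb
  induction c with
  | zero => rw [Xb]; simp
  | succ c ih =>
    rw [Xb]
    refine le_trans (Nat.mul_le_mul_right _ (card_union_le _ _)) ?_
    rw [add_mul, add_mul, one_mul]
    apply Nat.add_le_add ih
    split_ifs with h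
    · exact card_bad D.kk (by omega) D.hA _ _
    · simp

theorem card_Yb (c : ℕ) :
    (D.Yb c).card * 8 ^ D.L ≤ c * ((Fintype.card A * Fintype.card Q + 1) ^ Fintype.card ι *
      Fintype.card (ι × A → Q)) := by
  induction c with
  | zero => rw [Yb]; simp
  | succ c ih =>
    rw [Yb]
    refine le_trans (Nat.mul_le_mul_right _ (card_union_le _ _)) ?_
    rw [add_mul, add_mul, one_mul]
    apply Nat.add_le_add ih
    split_ifs with h
    · exact card_small D.L _ _
    · simp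

/-- A structured state for the function `f`. -/
def State (f : Set T → ℝ) (X : Finset (ι → A)) (Y : Finset (ι × A → Q)) : Prop :=
  ∃ (P : Finset (ι → A)) (ρ : ι → Option Q) (θ : ℝ), P.Nonempty ∧ (∀ x ∈ P, x ∉ X) ∧ ρ ∈ D.H ∧
    (dom ρ).card ≤ D.kk ∧ Spread D.a P (dom ρ) ∧ (∀ x ∈ P, θ ≤ f (D.M x)) ∧
    Fintype.card (ι × A → Q) < (univ.filter fun y : ι × A → Q => y ∉ Y ∧ f (D.F y) < θ ∧
      ∀ x ∈ P, ∀ i c, ρ i = some c → y (i, x i) = c).card * 8 ^ D.L

/-- The needs of a wire. -/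
theorem wire_need {j : ℕ} {w : Set T → ℝ} (hw : Wire D.g j w)
    (hno : ∀ c (h : c < D.s), c < j → ¬ D.State (D.g ⟨c, h⟩) (D.Xb c) (D.Yb c))
    (x : ι → A) (hx : x ∉ D.Xb j) :
    ∃ J : Finset ι, J.card ≤ D.kk ∧ ∀ h ∈ D.H, (∀ i ∈ J, h i ≠ none) → ∀ y, y ∉ D.Yb j →
      (∀ i c, h i = some c → y (i, x i) = c) → w (D.F y) < w (D.M x) → False := by
  have hkk := D.hkk
  cases hw with
  | var t =>
    by_cases ht : t ∈ D.M x
    · obtain ⟨J, hJ, h⟩ := D.hvar x t ht
      refine ⟨J, by omega, ?_⟩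
      intro h' hh' hJ' y _ hy hlt
      have h1 := h h' hh' hJ' y hy
      simp only at hlt
      rw [Set.indicator_of_mem h1, Set.indicator_of_mem ht] at hlt
      exact lt_irrefl _ hlt
    · refine ⟨∅, by simp, ?_⟩
      intro h' _ _ y _ _ hlt
      simp only at hlt
      rw [Set.indicator_of_notMem ht] at hlt
      exact absurd hlt (not_lt.2 (Set.indicator_nonneg (fun _ _ => by simp) _))
  | const c =>
    refine ⟨∅, by simp, ?_⟩
    intro h' _ _ y _ _ hlt
    exact lt_irrefl _ hlt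
  | gate c hc =>
    obtain ⟨c, hcs⟩ := c
    have hc : c < j := hc
    have hx1 : x ∉ D.Xb (c + 1) := fun h => hx (D.Xb_mono hc h)
    rw [Xb, mem_union, not_or] at hx1
    obtain ⟨hx2, hx3⟩ := hx1
    rw [dif_pos hcs, mem_filter, not_and_not_right] at hx3
    obtain ⟨I, P, hI, hxP, hPX, hlvl, hagree, hspread⟩ := hx3 (by
      rw [mem_sdiff]; exact ⟨mem_univ _, hx2⟩)
    refine ⟨I, hI, ?_⟩
    intro h hh hhI y hy hyx hlt
    have hy1 : y ∉ D.Yb (c + 1) := fun h => hy (D.Yb_mono hc h)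
    rw [Yb, mem_union, not_or] at hy1
    obtain ⟨hy2, hy3⟩ := hy1
    rw [dif_pos hcs, mem_filter, not_and] at hy3
    have hsmall := hy3 (by rw [mem_sdiff]; exact ⟨mem_univ _, hy2⟩)
    set ρ : ι → Option Q := fun i => if i ∈ I then h i else none with hρ
    set p : ι → Option (A × Q) := fun i => (ρ i).map fun c => (x i, c) with hp
    have hρdom : dom ρ = I := by
      ext i
      rw [mem_dom, hρ]
      simp only
      by_cases hi : i ∈ I
      · simp [hi, hhI i hi]
      · simp [hi]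
    have hρh : ∀ i c, ρ i = some c → h i = some c := by
      intro i c hic
      rw [hρ] at hic
      simp only at hic
      split_ifs at hic
      exact hic
    apply hno c hcs hc
    refine ⟨P, ρ, D.g ⟨c, hcs⟩ (D.M x), ⟨x, hxP⟩, ?_, D.hres h hh ρ hρh, ?_, ?_, hlvl, ?_⟩
    · intro x' hx'
      exact (mem_sdiff.1 (hPX hx')).2
    · rw [hρdom]; exact hI
    · rw [hρdom]; exact hspread
    · have hmem : y ∈ below (univ \ D.Yb c) (fun y => D.g ⟨c, hcs⟩ (D.F y)) p
          (D.g ⟨c, hcs⟩ (D.M x)) := by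
        rw [below, mem_filter]
        refine ⟨mem_sdiff.2 ⟨mem_univ _, hy2⟩, hlt, ?_⟩
        intro i α c' hi
        rw [hp] at hi
        simp only [Option.map_eq_some_iff, Prod.mk.injEq] at hi
        obtain ⟨c'', h1, rfl, rfl⟩ := hi
        exact hyx i _ (hρh i _ h1)
      have hbig : ¬ (below (univ \ D.Yb c) (fun y => D.g ⟨c, hcs⟩ (D.F y)) p
          (D.g ⟨c, hcs⟩ (D.M x))).card * 8 ^ D.L ≤ Fintype.card (ι × A → Q) := by
        intro hle
        exact hsmall ⟨p, _, hmem, hle⟩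
      push Not at hbig
      refine lt_of_lt_of_le hbig (Nat.mul_le_mul_right _ (card_le_card ?_))
      intro y' hy'
      rw [below, mem_filter] at hy'
      obtain ⟨h1, h2, h3⟩ := hy'
      rw [mem_filter]
      refine ⟨mem_univ _, (mem_sdiff.1 h1).2, h2, ?_⟩
      intro x' hx' i c' hi
      have hiI : i ∈ I := by
        rw [← hρdom, mem_dom, hi]; simp
      rw [hagree x' hx' i hiI]
      apply h3 i (x i) c'
      rw [hp]
      simp [hi]

/-- One step of the walk. -/
theorem step [Nonempty Q] {j : ℕ} {f u v : Set T → ℝ} {φ : ℝ → ℝ → ℝ} (hu : Wire D.g j u)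
    (hv : Wire D.g j v) (hφ : ∀ u u' v v', u ≤ u' → v ≤ v' → φ u v ≤ φ u' v')
    (hf : ∀ x, f x = φ (u x) (v x))
    (hno : ∀ c (h : c < D.s), c < j → ¬ D.State (D.g ⟨c, h⟩) (D.Xb c) (D.Yb c)) :
    ¬ D.State f (D.Xb j) (D.Yb j) := by
  rintro ⟨P, ρ, θ, hP, hPX, hρ, hρc, hs, hθ, hbig⟩
  obtain ⟨x, hxP, hx⟩ := full_range D.ha D.hL ρ hP hs _ (by
    intro y hy x hx i c hi
    exact (mem_filter.1 hy).2.2.2 x hx i c hi) D.hnum hbig
  obtain ⟨J₁, hJ₁, hn₁⟩ := D.wire_need hu hno x (hPX x hxP)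
  obtain ⟨J₂, hJ₂, hn₂⟩ := D.wire_need hv hno x (hPX x hxP)
  have hk := D.hk
  obtain ⟨h, hh, hext, hJ, -⟩ := extend_many D.hres D.hext (J₁ ∪ J₂) ρ hρ (by
    have h1 := card_union_le (dom ρ) (J₁ ∪ J₂)
    have h2 := card_union_le J₁ J₂
    omega)
  set z : ι → Q := fun i => (h i).getD (Classical.arbitrary Q) with hz
  have hzh : ∀ i c, h i = some c → z i = c := by
    intro i c hi
    rw [hz]
    simp [hi]
  obtain ⟨y, hy, hyz⟩ := hx z (fun i c hi => hzh i c (hext i c hi))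
  obtain ⟨-, hyY, hyθ, -⟩ := mem_filter.1 hy
  have hcomp : ∀ i c, h i = some c → y (i, x i) = c := by
    intro i c hi
    rw [hyz i, hzh i c hi]
  have hlt : f (D.F y) < f (D.M x) := lt_of_lt_of_le hyθ (hθ x hxP)
  have h1 := hn₁ h hh (fun i hi => hJ i (mem_union_left _ hi)) y hyY hcomp
  have h2 := hn₂ h hh (fun i hi => hJ i (mem_union_right _ hi)) y hyY hcomp
  rw [hf, hf] at hlt
  exact absurd (hφ _ _ _ _ (not_lt.1 h1) (not_lt.1 h2)) (not_le.2 hlt)

theorem no_state [Nonempty Q]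
    (hcirc : ∀ i : Fin D.s, ∃ (a b : Set T → ℝ) (φ : ℝ → ℝ → ℝ), Wire D.g i a ∧ Wire D.g i b ∧
      (∀ u u' v v', u ≤ u' → v ≤ v' → φ u v ≤ φ u' v') ∧ ∀ x, D.g i x = φ (a x) (b x)) (c : ℕ) :
    ∀ h : c < D.s, ¬ D.State (D.g ⟨c, h⟩) (D.Xb c) (D.Yb c) := by
  induction c using Nat.strong_induction_on with
  | _ c ih =>
    intro h
    obtain ⟨a, b, φ, ha, hb, hφ, hf⟩ := hcirc ⟨c, h⟩
    exact D.step ha hb hφ hf fun c' h' hc' => ih c' hc' h'

/-- The initial state. -/
theorem init_state [Nonempty A] [Nonempty Q] (f : Set T → ℝ)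
    (hsep : ∀ x y, f (D.F y) < f (D.M x)) : D.State f (D.Xb D.s) (D.Yb D.s) := by
  have hb := D.hb
  have ha := D.ha
  have hApos : 0 < Fintype.card A := Fintype.card_pos
  set mn := Fintype.card A ^ Fintype.card ι with hmn
  have hmnpos : 0 < mn := Nat.pow_pos hApos
  have hcardX : Fintype.card (ι → A) = mn := by rw [Fintype.card_fun]
  set P : Finset (ι → A) := univ \ D.Xb D.s with hP
  have hPcard : P.card + (D.Xb D.s).card = mn := by
    rw [← hcardX, ← card_univ, hP]
    exact card_sdiff_add_card_eq_card (subset_univ _)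
  have hXb : 2 * (D.Xb D.s).card ≤ mn := by
    have h1 := D.card_Xb D.s
    have h2 := D.hX
    have h3 : 0 < D.b ^ (D.kk + 1) := Nat.pow_pos (by omega)
    have h4 : 2 * (D.Xb D.s).card * D.b ^ (D.kk + 1) ≤ mn * D.b ^ (D.kk + 1) := by
      calc 2 * (D.Xb D.s).card * D.b ^ (D.kk + 1)
          = 2 * ((D.Xb D.s).card * D.b ^ (D.kk + 1)) := by ring
        _ ≤ 2 * (D.s * mn) := Nat.mul_le_mul_left _ h1
        _ = 2 * D.s * mn := by ring
        _ ≤ D.b ^ (D.kk + 1) * mn := Nat.mul_le_mul_right _ h2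
        _ = _ := by ring
    exact Nat.le_of_mul_le_mul_right h4 h3
  have hPne : P.Nonempty := by
    rw [← card_pos]; omega
  obtain ⟨h₀, hh₀⟩ := D.hH
  have hempty : (fun _ : ι => (none : Option Q)) ∈ D.H :=
    D.hres h₀ hh₀ _ (by intro i c hc; exact absurd hc (by simp))
  have hdom : dom (fun _ : ι => (none : Option Q)) = ∅ := by
    ext i; rw [mem_dom]; simp
  have hne : (univ : Finset (ι → A)).Nonempty := univ_nonempty
  obtain ⟨x₀, -, hx₀⟩ := exists_min_image (univ : Finset (ι → A)) (fun x => f (D.M x)) hne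
  refine ⟨P, fun _ => none, f (D.M x₀), hPne, ?_, hempty, ?_, ?_, ?_, ?_⟩
  · intro x hx
    exact (mem_sdiff.1 hx).2
  · rw [hdom]; simp
  · rw [hdom]
    intro J _ β
    rcases J.eq_empty_or_nonempty with h | h
    · subst h; simp
    have hJ : 1 ≤ J.card := card_pos.2 h
    have h1 : (P.filter fun x => ∀ i ∈ J, x i = β i).card * Fintype.card A ^ J.card ≤ mn := by
      refine le_trans (Nat.mul_le_mul_right _ (card_le_card ?_)) (card_fixed J β).le
      intro x hx
      exact mem_filter.2 ⟨mem_univ _, (mem_filter.1 hx).2⟩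
    rw [D.hA, mul_pow] at h1
    have h2 : 2 ≤ D.b ^ J.card := by
      calc 2 ≤ D.b := hb
        _ = D.b ^ 1 := (pow_one _).symm
        _ ≤ _ := Nat.pow_le_pow_right (by omega) hJ
    have h3 : 2 * ((P.filter fun x => ∀ i ∈ J, x i = β i).card * D.a ^ J.card) ≤ mn := by
      calc 2 * ((P.filter fun x => ∀ i ∈ J, x i = β i).card * D.a ^ J.card)
          ≤ D.b ^ J.card * ((P.filter fun x => ∀ i ∈ J, x i = β i).card * D.a ^ J.card) :=
            Nat.mul_le_mul_right _ h2
        _ = (P.filter fun x => ∀ i ∈ J, x i = β i).card * (D.a ^ J.card * D.b ^ J.card) := by ring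
        _ ≤ mn := h1
    omega
  · intro x _
    exact hx₀ x (mem_univ _)
  · set W := Fintype.card (ι × A → Q) with hW
    have hWpos : 0 < W := Fintype.card_pos
    have hset : (univ.filter fun y : ι × A → Q => y ∉ D.Yb D.s ∧ f (D.F y) < f (D.M x₀) ∧
        ∀ x ∈ P, ∀ i c, (none : Option Q) = some c → y (i, x i) = c) = univ \ D.Yb D.s := by
      ext y
      simp only [mem_filter, mem_univ, true_and, mem_sdiff]
      constructor
      · rintro ⟨h1, -⟩
        exact h1
      · intro h1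
        refine ⟨h1, hsep x₀ y, ?_⟩
        intro x _ i c hc
        exact absurd hc (by simp)
    rw [hset]
    have h1 : (univ \ D.Yb D.s).card + (D.Yb D.s).card = W := by
      rw [hW, ← card_univ]
      exact card_sdiff_add_card_eq_card (subset_univ _)
    have h2 := D.card_Yb D.s
    have h3 := D.hY
    rw [← hW] at h2
    have h4 : (D.s * (Fintype.card A * Fintype.card Q + 1) ^ Fintype.card ι + 1) * W <
        8 ^ D.L * W := Nat.mul_lt_mul_of_pos_right h3 hWpos
    have h5 : (univ \ D.Yb D.s).card * 8 ^ D.L + (D.Yb D.s).card * 8 ^ D.L = 8 ^ D.L * W := by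
      rw [← add_mul, h1]; ring
    have h6 : D.s * ((Fintype.card A * Fintype.card Q + 1) ^ Fintype.card ι * W) + W =
        (D.s * (Fintype.card A * Fintype.card Q + 1) ^ Fintype.card ι + 1) * W := by ring
    omega

/-- The circuit does not separate. -/
theorem not_separates [Nonempty A] [Nonempty Q]
    (hcirc : ∀ i : Fin D.s, ∃ (a b : Set T → ℝ) (φ : ℝ → ℝ → ℝ), Wire D.g i a ∧ Wire D.g i b ∧
      (∀ u u' v v', u ≤ u' → v ≤ v' → φ u v ≤ φ u' v') ∧ ∀ x, D.g i x = φ (a x) (b x))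
    (f : Set T → ℝ) (hf : Wire D.g D.s f) (hsep : ∀ x y, f (D.F y) < f (D.M x)) : False :=
  D.step (φ := fun u _ => u) hf hf (fun _ _ _ _ h _ => h) (fun _ => rfl)
    (fun c h _ => D.no_state hcirc c h) (D.init_state f hsep)

end Data

end

end Pool.Agent.MP_ec946a.Mono
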